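import Pool.Agent.Lib.MP_8a3537_gt.UV.Defs

/-!
# Vanishing of `UNil_n`, `n` odd, over free edge groups (MP_8a3537_gt, folder UO): definitions

`A` is a ring with involution. On `A^ι ⊕ A^ι` there is the hyperbolic `ε`-quadratic form
`(a, b) ↦ a^* b` (modulo the elements `z - ε z^*`). A Lagrangian is given by two matrices `α`, `β`
(`ι × κ`), it is the set of the vectors `(α x, β x)`.
-/

namespace Pool.Agent.Lib.MP8a3537.UO

open Matrix Pool.Agent.Lib.MP8a3537.UV

section Lagrangians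

variable {A : Type*} [Ring A] [StarRing A]

/-- The diagonal matrix with entries `1` at the places in `s` and `0` elsewhere. -/
def diagOn {ι : Type*} [DecidableEq ι] (A : Type*) [Ring A] (s : Finset ι) : Matrix ι ι A :=
  Matrix.diagonal fun i => if i ∈ s then 1 else 0

/-- The elementary isometries of the hyperbolic `ε`-quadratic form on `A^ι ⊕ A^ι`: the products of
the isometries `(c, 0; 0, (c^*)⁻¹)`, `(1, 0; Z - ε Z^*, 1)` and the exchanges of the coordinates
`i ∈ s` of the two summands, `(1 - E, ε E; E, 1 - E)` with `E = diagOn A s`. -/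
inductive EU (ε : ℤˣ) {ι : Type*} [Fintype ι] [DecidableEq ι] :
    Matrix (ι ⊕ ι) (ι ⊕ ι) A → Prop
  | one : EU ε 1
  | diag (c c' : Matrix ι ι A) (h : c * c' = 1) (h' : c' * c = 1) (u) :
      EU ε u → EU ε (fromBlocks c 0 0 c'ᴴ * u)
  | low (Z : Matrix ι ι A) (u) : EU ε u → EU ε (fromBlocks 1 0 (Z - (ε : ℤ) • Zᴴ) 1 * u)
  | flip (s : Finset ι) (u) : EU ε u →
      EU ε (fromBlocks (1 - diagOn A s) ((ε : ℤ) • diagOn A s) (diagOn A s) (1 - diagOn A s) * u)

/-- The Lagrangian `(α; β)` plus the standard Lagrangian `(1; 0)` of some rank `m` is the image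
`u (c; 0)`, `c` invertible, of the standard Lagrangian under an elementary isometry `u`. -/
def StablyTrivial (ε : ℤˣ) {ι κ : Type*} [Fintype ι] [DecidableEq ι] [Fintype κ] [DecidableEq κ]
    (α β : Matrix ι κ A) : Prop :=
  ∃ (m : ℕ) (u : Matrix ((ι ⊕ Fin m) ⊕ (ι ⊕ Fin m)) ((ι ⊕ Fin m) ⊕ (ι ⊕ Fin m)) A)
    (c : Matrix (ι ⊕ Fin m) (κ ⊕ Fin m) A) (c' : Matrix (κ ⊕ Fin m) (ι ⊕ Fin m) A),
    EU ε u ∧ c * c' = 1 ∧ c' * c = 1 ∧
    fromRows (fromBlocks α 0 0 1) (fromBlocks β 0 0 0) = u * fromRows c 0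

/-- The first half `(f, 1 + m; 1 + m'^*, g)` of the Lagrangian `V(d; f, g, m, m')`. -/
def VA {n : Type*} [Fintype n] [DecidableEq n] (f g m m' : Matrix n n A) :
    Matrix (n ⊕ n) (n ⊕ n) A :=
  fromBlocks f (1 + m) (1 + m'ᴴ) g

/-- The second half `(d^*, 0; 0, -ε d)` of the Lagrangian `V(d; f, g, m, m')`. -/
def VB (ε : ℤˣ) {n : Type*} [Fintype n] [DecidableEq n] (d : Matrix n n A) :
    Matrix (n ⊕ n) (n ⊕ n) A :=
  fromBlocks dᴴ 0 0 (-((ε : ℤ) • d))

end Lagrangians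

/-- The inclusion `D[H] → D[G]` on matrices. -/
noncomputable def ext {D G : Type} [Ring D] [Group G] {H : Subgroup G} {m n : Type*}
    (M : Matrix m n (MonoidAlgebra D H)) : Matrix m n (MonoidAlgebra D G) :=
  M.map (MonoidAlgebra.mapDomainRingHom D H.subtype)

end Pool.Agent.Lib.MP8a3537.UO
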