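import Pool.Agent.Lib.MP_8a3537_gt.UO.Spec

/-!
# UO, module EMO: the odd E-move
-/

namespace Pool.Agent.Lib.MP8a3537.UO

open Matrix

namespace EMOAux

section

variable {A : Type*} [Ring A] {n : ℕ}

/-- three by three blocks -/
def T3 (a11 a12 a13 a21 a22 a23 a31 a32 a33 : Matrix (Fin n) (Fin n) A) :
    Matrix ((Fin n ⊕ Fin n) ⊕ Fin n) ((Fin n ⊕ Fin n) ⊕ Fin n) A :=
  fromBlocks (fromBlocks a11 a12 a21 a22) (fromRows a13 a23) (fromCols a31 a32) a33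

theorem T3_mul (a11 a12 a13 a21 a22 a23 a31 a32 a33 b11 b12 b13 b21 b22 b23 b31 b32 b33 :
    Matrix (Fin n) (Fin n) A) :
    T3 a11 a12 a13 a21 a22 a23 a31 a32 a33 * T3 b11 b12 b13 b21 b22 b23 b31 b32 b33 =
      T3 (a11 * b11 + a12 * b21 + a13 * b31) (a11 * b12 + a12 * b22 + a13 * b32)
        (a11 * b13 + a12 * b23 + a13 * b33) (a21 * b11 + a22 * b21 + a23 * b31)
        (a21 * b12 + a22 * b22 + a23 * b32) (a21 * b13 + a22 * b23 + a23 * b33)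
        (a31 * b11 + a32 * b21 + a33 * b31) (a31 * b12 + a32 * b22 + a33 * b32)
        (a31 * b13 + a32 * b23 + a33 * b33) := by
  unfold T3
  rw [fromBlocks_multiply]
  congr 1
  · rw [fromBlocks_multiply, fromRows_mul_fromCols]
    ext i j
    rcases i with i | i <;> rcases j with j | j <;> simp [Matrix.add_apply]
  · ext i j
    rcases i with i | i <;>
      simp [Matrix.add_apply, Matrix.mul_apply, Fintype.sum_sum_type]
  · ext i j
    rcases j with j | j <;>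
      simp [Matrix.add_apply, Matrix.mul_apply, Fintype.sum_sum_type]
  · ext i j
    simp [Matrix.add_apply, Matrix.mul_apply, Fintype.sum_sum_type]

theorem T3_add (a11 a12 a13 a21 a22 a23 a31 a32 a33 b11 b12 b13 b21 b22 b23 b31 b32 b33 :
    Matrix (Fin n) (Fin n) A) :
    T3 a11 a12 a13 a21 a22 a23 a31 a32 a33 + T3 b11 b12 b13 b21 b22 b23 b31 b32 b33 =
      T3 (a11 + b11) (a12 + b12) (a13 + b13) (a21 + b21) (a22 + b22) (a23 + b23) (a31 + b31)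
        (a32 + b32) (a33 + b33) := by
  unfold T3
  ext i j
  rcases i with (i | i) | i <;> rcases j with (j | j) | j <;> simp

theorem T3_one : (1 : Matrix ((Fin n ⊕ Fin n) ⊕ Fin n) ((Fin n ⊕ Fin n) ⊕ Fin n) A) =
    T3 1 0 0 0 1 0 0 0 1 := by
  unfold T3
  rw [← fromBlocks_one, ← fromBlocks_one]
  congr 1
  · ext i j
    rcases i with i | i <;> simp
  · ext i j
    rcases j with j | j <;> simp

theorem T3_blocks (α : Matrix (Fin n ⊕ Fin n) (Fin n ⊕ Fin n) A) (e : Matrix (Fin n) (Fin n) A)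
    {a b c d : Matrix (Fin n) (Fin n) A} (h : α = fromBlocks a b c d) :
    (fromBlocks α 0 0 e : Matrix ((Fin n ⊕ Fin n) ⊕ Fin n) ((Fin n ⊕ Fin n) ⊕ Fin n) A) =
      T3 a b 0 c d 0 0 0 e := by
  unfold T3
  rw [h]
  congr 1
  · ext i j
    rcases i with i | i <;> simp
  · ext i j
    rcases j with j | j <;> simp

variable [StarRing A]

theorem T3_conj (a11 a12 a13 a21 a22 a23 a31 a32 a33 : Matrix (Fin n) (Fin n) A) :
    (T3 a11 a12 a13 a21 a22 a23 a31 a32 a33)ᴴ =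
      T3 a11ᴴ a21ᴴ a31ᴴ a12ᴴ a22ᴴ a32ᴴ a13ᴴ a23ᴴ a33ᴴ := by
  unfold T3
  ext i j
  rcases i with (i | i) | i <;> rcases j with (j | j) | j <;> simp

theorem T3_smul (e : ℤ) (a11 a12 a13 a21 a22 a23 a31 a32 a33 : Matrix (Fin n) (Fin n) A) :
    e • (T3 a11 a12 a13 a21 a22 a23 a31 a32 a33) =
      T3 (e • a11) (e • a12) (e • a13) (e • a21) (e • a22) (e • a23) (e • a31) (e • a32)
        (e • a33) := by
  unfold T3
  ext i j
  rcases i with (i | i) | i <;> rcases j with (j | j) | j <;>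
    simp only [Matrix.smul_apply, fromBlocks_apply₁₁, fromBlocks_apply₁₂, fromBlocks_apply₂₁,
      fromBlocks_apply₂₂, fromRows_apply_inl, fromRows_apply_inr, fromCols_apply_inl,
      fromCols_apply_inr]

theorem T3_sub (a11 a12 a13 a21 a22 a23 a31 a32 a33 b11 b12 b13 b21 b22 b23 b31 b32 b33 :
    Matrix (Fin n) (Fin n) A) :
    T3 a11 a12 a13 a21 a22 a23 a31 a32 a33 - T3 b11 b12 b13 b21 b22 b23 b31 b32 b33 =
      T3 (a11 - b11) (a12 - b12) (a13 - b13) (a21 - b21) (a22 - b22) (a23 - b23) (a31 - b31)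
        (a32 - b32) (a33 - b33) := by
  unfold T3
  ext i j
  rcases i with (i | i) | i <;> rcases j with (j | j) | j <;> simp

end

theorem T3_congr {A : Type*} [Ring A] {n : ℕ}
    {a11 a12 a13 a21 a22 a23 a31 a32 a33 b11 b12 b13 b21 b22 b23 b31 b32 b33 :
    Matrix (Fin n) (Fin n) A} (h1 : a11 = b11) (h2 : a12 = b12) (h3 : a13 = b13) (h4 : a21 = b21)
    (h5 : a22 = b22) (h6 : a23 = b23) (h7 : a31 = b31) (h8 : a32 = b32) (h9 : a33 = b33) :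
    T3 a11 a12 a13 a21 a22 a23 a31 a32 a33 = T3 b11 b12 b13 b21 b22 b23 b31 b32 b33 := by
  rw [h1, h2, h3, h4, h5, h6, h7, h8, h9]

theorem diag_rows {A : Type*} [Ring A] {ι κ : Type*} [Fintype ι] [Fintype κ]
    (P Q : Matrix ι ι A) (U L : Matrix ι κ A) :
    (fromBlocks P 0 0 Q : Matrix (ι ⊕ ι) (ι ⊕ ι) A) * (fromRows U L : Matrix (ι ⊕ ι) κ A) =
      fromRows (P * U) (Q * L) := by
  rw [fromBlocks_mul_fromRows]
  simp

theorem low_rows {A : Type*} [Ring A] {ι κ : Type*} [Fintype ι] [DecidableEq ι] [Fintype κ]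
    (W : Matrix ι ι A) (U L : Matrix ι κ A) :
    (fromBlocks 1 0 W 1 : Matrix (ι ⊕ ι) (ι ⊕ ι) A) * (fromRows U L : Matrix (ι ⊕ ι) κ A) =
      fromRows U (W * U + L) := by
  rw [fromBlocks_mul_fromRows]
  simp

end EMOAux

open EMOAux

theorem specEMO (hGRP : SpecGRP) : SpecEMO := by
  intro A _ _ ε n c d' g' m1' f m' h1 hZ hst
  obtain ⟨Z, hZ⟩ := hZ
  -- consequences
  have k1 : m1'ᴴ * (cᴴ * d'ᴴ) = d'ᴴ * m'ᴴ := by
    have := congrArg conjTranspose h1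
    simp only [conjTranspose_mul] at this
    exact this
  have k2 : d'ᴴ * g' = -((ε : ℤ) • (g'ᴴ * d')) := by
    have h2 := congrArg conjTranspose hZ
    rw [conjTranspose_mul, conjTranspose_conjTranspose] at h2
    rw [h2, hZ]
    rcases Int.units_eq_one_or ε with h | h
    · subst h
      simp
    · subst h
      simp [add_comm]
  set w : ℤ := (ε : ℤ) with hw
  -- the steps
  have hP : (T3 0 0 1 0 1 0 1 0 0 : Matrix ((Fin n ⊕ Fin n) ⊕ Fin n) ((Fin n ⊕ Fin n) ⊕ Fin n) A)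
      * T3 0 0 1 0 1 0 1 0 0 = 1 := by
    rw [T3_mul, T3_one]
    simp
  have u6 := EU.diag (ε := ε) _ _ hP hP _ EU.one
  have hS5 : (T3 1 0 0 0 1 0 (-c) 0 1 * T3 1 0 0 0 1 0 c 0 1 :
      Matrix ((Fin n ⊕ Fin n) ⊕ Fin n) ((Fin n ⊕ Fin n) ⊕ Fin n) A) = 1 := by
    rw [T3_mul, T3_one]
    simp
  have hS5' : (T3 1 0 0 0 1 0 c 0 1 * T3 1 0 0 0 1 0 (-c) 0 1 :
      Matrix ((Fin n ⊕ Fin n) ⊕ Fin n) ((Fin n ⊕ Fin n) ⊕ Fin n) A) = 1 := by
    rw [T3_mul, T3_one]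
    simp
  have u5 := EU.diag (ε := ε) _ _ hS5 hS5' _ u6
  have hS4 : (T3 1 0 (-m1') 0 1 0 0 0 1 * T3 1 0 m1' 0 1 0 0 0 1 :
      Matrix ((Fin n ⊕ Fin n) ⊕ Fin n) ((Fin n ⊕ Fin n) ⊕ Fin n) A) = 1 := by
    rw [T3_mul, T3_one]
    simp
  have hS4' : (T3 1 0 m1' 0 1 0 0 0 1 * T3 1 0 (-m1') 0 1 0 0 0 1 :
      Matrix ((Fin n ⊕ Fin n) ⊕ Fin n) ((Fin n ⊕ Fin n) ⊕ Fin n) A) = 1 := by
    rw [T3_mul, T3_one]
    simp
  have u4 := EU.diag (ε := ε) _ _ hS4 hS4' _ u5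
  have u3 := EU.low (ε := ε) (T3 0 0 0 0 0 0 0 0 Z) _ u4
  have u2 := EU.low (ε := ε) (T3 0 0 0 0 0 0 0 (-d'ᴴ) 0) _ u3
  have hS1 : (T3 1 0 0 0 1 (-g') 0 0 1 * T3 1 0 0 0 1 g' 0 0 1 :
      Matrix ((Fin n ⊕ Fin n) ⊕ Fin n) ((Fin n ⊕ Fin n) ⊕ Fin n) A) = 1 := by
    rw [T3_mul, T3_one]
    simp
  have hS1' : (T3 1 0 0 0 1 g' 0 0 1 * T3 1 0 0 0 1 (-g') 0 0 1 :
      Matrix ((Fin n ⊕ Fin n) ⊕ Fin n) ((Fin n ⊕ Fin n) ⊕ Fin n) A) = 1 := by
    rw [T3_mul, T3_one]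
    simp
  have u1 := EU.diag (ε := ε) _ _ hS1 hS1' _ u2
  -- the change of parameters
  have hC : (T3 1 0 0 0 c 1 f (1 + m1' * c) m1' * T3 1 0 0 (-f) (-m1') 1 (c * f) (1 + c * m1') (-c) :
      Matrix ((Fin n ⊕ Fin n) ⊕ Fin n) ((Fin n ⊕ Fin n) ⊕ Fin n) A) = 1 := by
    rw [T3_mul, T3_one]
    refine T3_congr ?_ ?_ ?_ ?_ ?_ ?_ ?_ ?_ ?_ <;> noncomm_ring
  have hC' : (T3 1 0 0 (-f) (-m1') 1 (c * f) (1 + c * m1') (-c) * T3 1 0 0 0 c 1 f (1 + m1' * c) m1' :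
      Matrix ((Fin n ⊕ Fin n) ⊕ Fin n) ((Fin n ⊕ Fin n) ⊕ Fin n) A) = 1 := by
    rw [T3_mul, T3_one]
    refine T3_congr ?_ ?_ ?_ ?_ ?_ ?_ ?_ ?_ ?_ <;> noncomm_ring
  refine (hGRP A ε).2 (Fin n ⊕ Fin n) (Fin n ⊕ Fin n) _ _ _ _ n _ _ _ u1 hC hC' ?_ hst
  -- the identity
  rw [T3_blocks (VA f (g' * c) (m1' * c) m') 1 rfl, T3_blocks (VB ε (d' * c)) 0 rfl,
    T3_blocks (VA (c * f) g' (c * m1') m') 1 rfl, T3_blocks (VB ε d') 0 rfl]
  simp only [Matrix.mul_assoc, Matrix.mul_one, ← fromRows_mul]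
  simp only [T3_conj, T3_smul, T3_sub, fromRows_mul, diag_rows, low_rows, Matrix.one_mul]
  have hZ' : Z - (ε : ℤ) • Zᴴ = d'ᴴ * g' := hZ.symm
  simp only [conjTranspose_zero, conjTranspose_one, smul_zero, sub_zero, zero_sub,
    conjTranspose_neg, conjTranspose_conjTranspose, smul_neg, neg_neg, hZ']
  congr 1
  · simp only [T3_mul, Matrix.zero_mul, Matrix.mul_zero, Matrix.one_mul, Matrix.mul_one, add_zero,
      zero_add]
    refine T3_congr ?_ ?_ ?_ ?_ ?_ ?_ ?_ ?_ ?_ <;> noncomm_ring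
  · simp only [T3_mul, T3_add, Matrix.zero_mul, Matrix.mul_zero, Matrix.one_mul, Matrix.mul_one,
      add_zero, zero_add]
    have a1 : -c * f + c * f = 0 := by noncomm_ring
    have a2 : -c * (1 + m1' * c) + (1 + c * m1') * c = 0 := by noncomm_ring
    have a3 : -c * m1' + (1 + c * m1') = 1 := by noncomm_ring
    have k3 : d'ᴴ * g' * c = -(g'ᴴ * ((ε : ℤ) • d') * c) := by
      rw [k2, Matrix.mul_smul, Matrix.neg_mul]
    simp only [a1, a2, a3, Matrix.mul_zero, Matrix.mul_one, zero_add, add_zero]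
    refine T3_congr ?_ ?_ ?_ ?_ ?_ ?_ ?_ ?_ ?_
    · simp [conjTranspose_mul]
    · simp
    · simp
    · simp
    · rw [Matrix.neg_mul, Matrix.smul_mul]
    · simp
    · rw [k1]
      noncomm_ring
    · have e1 : -d'ᴴ * (g' * c) = -(d'ᴴ * g' * c) := by
        rw [← Matrix.mul_assoc, Matrix.neg_mul, Matrix.neg_mul]
      rw [e1, k3, Matrix.neg_mul, Matrix.mul_neg, neg_neg, ← Matrix.mul_assoc, neg_add_cancel]
    · noncomm_ring

end Pool.Agent.Lib.MP8a3537.UO
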