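import Pool.Agent.Lib.MP_8a3537_gt.UO.Spec

/-!
# MP_8a3537_gt, UO, module END: injective modulo all primes implies invertible
-/

namespace Pool.Agent.Lib.MP8a3537.UO

open Matrix Pool.Agent.Lib.MP8a3537.UV

namespace ENDAux

theorem cancel {D F : Type} [CommRing D] [IsDomain D] [Group F] {n : ℕ} {p : D} (hp : p ≠ 0)
    {X Y : Matrix (Fin n) (Fin n) (MonoidAlgebra D F)} (h : p • X = p • Y) : X = Y := by
  ext i j g
  have h1 := congrArg (fun M : Matrix (Fin n) (Fin n) (MonoidAlgebra D F) => (M i j).coeff g) h
  simp only [Matrix.smul_apply, MonoidAlgebra.coeff_smul, Finsupp.smul_apply, smul_eq_mul] at h1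
  exact mul_left_cancel₀ hp h1

end ENDAux

open ENDAux in
theorem specEND : SpecEND := by
  intro D F _ _ _ _ n q d e hq hde hed hinj
  classical
  revert e
  revert hq
  induction q using WfDvdMonoid.induction_on_irreducible with
  | zero => intro h; exact absurd rfl h
  | unit u hu =>
    intro _ e hde hed
    obtain ⟨v, rfl⟩ := hu
    refine ⟨((v⁻¹ : Dˣ) : D) • e, ?_, ?_⟩
    · rw [Matrix.mul_smul, hde, smul_smul, Units.inv_mul, one_smul]
    · rw [Matrix.smul_mul, hed, smul_smul, Units.inv_mul, one_smul]
  | mul a i ha hi ih =>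
    intro _ e hde hed
    have hp : Prime i := hi.prime
    have hcol : ∀ j, Dv i (fun r => e r j) := by
      intro j
      refine hinj i hp _ ⟨fun r => (a • (1 : Matrix (Fin n) (Fin n) (MonoidAlgebra D F))) r j, ?_⟩
      funext r
      have h1 : (d *ᵥ fun r => e r j) r = (d * e) r j := rfl
      rw [h1, hde, mul_smul]
      rfl
    choose e' he' using hcol
    have he : e = i • (Matrix.of fun r j => e' j r) := by
      ext1 r j
      exact congrFun (he' j) r
    rw [he, Matrix.mul_smul, mul_smul] at hde
    rw [he, Matrix.smul_mul, mul_smul] at hed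
    exact ih ha _ (cancel hp.ne_zero hde) (cancel hp.ne_zero hed)

end Pool.Agent.Lib.MP8a3537.UO
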