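import Pool.Agent.Lib.MP_8a3537_gt.UO.Spec

/-!
# Module FNO of the folder UO: from ping-pong data to a tree
-/

namespace Pool.Agent.Lib.MP8a3537.UO

open Matrix Pool.Agent.Lib.MP8a3537.UV

theorem specFNO (h1 : UO.Thm1) (hTRE : SpecTRE) (hLWA : SpecLWA) : SpecFNO := by
  intro D G V _ _ _ _ _ _ T v w hT hact hvw hinv h2 hfree ε n q d e f g m m' hOD
  obtain ⟨Yp, Ym, pp⟩ := hTRE G V T v w hT hact hvw hinv h2
  exact h1 D G _ _ _ _ Yp Ym pp (fun k _ => hLWA k _ hfree) ε n q d e f g m m' hOD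

end Pool.Agent.Lib.MP8a3537.UO
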