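import Pool.Agent.Lib.MP_8a3537_gt.UO.Spec

/-!
# UO, module GRP: products in `EU`, and transport of `StablyTrivial`
-/

namespace Pool.Agent.Lib.MP8a3537.UO

open Matrix Pool.Agent.Lib.MP8a3537.UV

namespace GRPAux

variable {A : Type*} [Ring A] [StarRing A] {ε : ℤˣ}

theorem mul_mem {ι : Type*} [Fintype ι] [DecidableEq ι] {u v : Matrix (ι ⊕ ι) (ι ⊕ ι) A}
    (hu : EU ε u) (hv : EU ε v) : EU ε (u * v) := by
  induction hu with
  | one => simpa using hv
  | diag c c' h h' u _ ih =>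
    rw [Matrix.mul_assoc]
    exact EU.diag c c' h h' _ ih
  | low Z u _ ih =>
    rw [Matrix.mul_assoc]
    exact EU.low Z _ ih
  | flip s u _ ih =>
    rw [Matrix.mul_assoc]
    exact EU.flip s _ ih

theorem reindex {ι ι' : Type*} [Fintype ι] [DecidableEq ι] [Fintype ι'] [DecidableEq ι']
    (e : ι' ≃ ι) {u : Matrix (ι ⊕ ι) (ι ⊕ ι) A} (hu : EU ε u) :
    EU ε (u.submatrix (Equiv.sumCongr e e) (Equiv.sumCongr e e)) := by
  induction hu with
  | one =>
    rw [Matrix.submatrix_one_equiv]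
    exact EU.one
  | diag c c' h h' u _ ih =>
    rw [← Matrix.submatrix_mul_equiv _ _ _ (Equiv.sumCongr e e) _]
    have h1 : (fromBlocks c 0 0 c'ᴴ).submatrix (Equiv.sumCongr e e) (Equiv.sumCongr e e) =
        fromBlocks (c.submatrix e e) 0 0 ((c'.submatrix e e)ᴴ) := by
      ext i j
      rcases i with i | i <;> rcases j with j | j <;> rfl
    rw [h1]
    refine EU.diag _ _ ?_ ?_ _ ih
    · rw [Matrix.submatrix_mul_equiv, h, Matrix.submatrix_one_equiv]
    · rw [Matrix.submatrix_mul_equiv, h', Matrix.submatrix_one_equiv]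
  | low Z u _ ih =>
    rw [← Matrix.submatrix_mul_equiv _ _ _ (Equiv.sumCongr e e) _]
    have h1 : (fromBlocks (1 : Matrix ι ι A) 0 (Z - (ε : ℤ) • Zᴴ) 1).submatrix
        (Equiv.sumCongr e e) (Equiv.sumCongr e e) =
        fromBlocks 1 0 (Z.submatrix e e - (ε : ℤ) • (Z.submatrix e e)ᴴ) 1 := by
      ext i j
      rcases i with i | i <;> rcases j with j | j
      · simp [Matrix.one_apply]
      · rfl
      · rfl
      · simp [Matrix.one_apply]
    rw [h1]
    exact EU.low _ _ ih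
  | flip s u _ ih =>
    rw [← Matrix.submatrix_mul_equiv _ _ _ (Equiv.sumCongr e e) _]
    have h0 : ∀ i j, diagOn A s (e i) (e j) = diagOn A (s.map e.symm.toEmbedding) i j := by
      intro i j
      unfold diagOn
      rw [Matrix.diagonal_apply, Matrix.diagonal_apply]
      simp [Finset.mem_map_equiv]
    have h1 : (fromBlocks (1 - diagOn A s) ((ε : ℤ) • diagOn A s) (diagOn A s)
          (1 - diagOn A s)).submatrix (Equiv.sumCongr e e) (Equiv.sumCongr e e) =
        fromBlocks (1 - diagOn A (s.map e.symm.toEmbedding))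
          ((ε : ℤ) • diagOn A (s.map e.symm.toEmbedding)) (diagOn A (s.map e.symm.toEmbedding))
          (1 - diagOn A (s.map e.symm.toEmbedding)) := by
      ext i j
      rcases i with i | i <;> rcases j with j | j
      · change (1 - diagOn A s) (e i) (e j) = (1 - diagOn A (s.map e.symm.toEmbedding)) i j
        rw [Matrix.sub_apply, Matrix.sub_apply, h0]
        simp [Matrix.one_apply]
      · change ((ε : ℤ) • diagOn A s) (e i) (e j) =
          ((ε : ℤ) • diagOn A (s.map e.symm.toEmbedding)) i j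
        rw [Matrix.smul_apply, Matrix.smul_apply, h0]
      · exact h0 i j
      · change (1 - diagOn A s) (e i) (e j) = (1 - diagOn A (s.map e.symm.toEmbedding)) i j
        rw [Matrix.sub_apply, Matrix.sub_apply, h0]
        simp [Matrix.one_apply]
    rw [h1]
    exact EU.flip _ _ ih

theorem fromBlocks_sub' {a b c d : Type*} (M N : Matrix a c A) (M1 N1 : Matrix a d A)
    (M2 N2 : Matrix b c A) (M3 N3 : Matrix b d A) :
    fromBlocks M M1 M2 M3 - fromBlocks N N1 N2 N3 =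
      fromBlocks (M - N) (M1 - N1) (M2 - N2) (M3 - N3) := by
  rw [sub_eq_add_neg, fromBlocks_neg, fromBlocks_add]
  simp only [sub_eq_add_neg]

/-- `u ⊕ 1` -/
def xt (τ : Type*) [DecidableEq τ] {ι : Type*} (u : Matrix (ι ⊕ ι) (ι ⊕ ι) A) :
    Matrix ((ι ⊕ τ) ⊕ (ι ⊕ τ)) ((ι ⊕ τ) ⊕ (ι ⊕ τ)) A :=
  fromBlocks (fromBlocks u.toBlocks₁₁ 0 0 1) (fromBlocks u.toBlocks₁₂ 0 0 0)
    (fromBlocks u.toBlocks₂₁ 0 0 0) (fromBlocks u.toBlocks₂₂ 0 0 1)

theorem xt_mul (τ : Type*) [Fintype τ] [DecidableEq τ] {ι : Type*} [Fintype ι] [DecidableEq ι]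
    (u v : Matrix (ι ⊕ ι) (ι ⊕ ι) A) : xt τ (u * v) = xt τ u * xt τ v := by
  rw [← fromBlocks_toBlocks u, ← fromBlocks_toBlocks v]
  simp only [xt, fromBlocks_multiply, toBlocks_fromBlocks₁₁, toBlocks_fromBlocks₁₂,
    toBlocks_fromBlocks₂₁, toBlocks_fromBlocks₂₂, fromBlocks_add]
  simp

theorem xt_one (τ : Type*) [Fintype τ] [DecidableEq τ] {ι : Type*} [Fintype ι] [DecidableEq ι] :
    xt τ (1 : Matrix (ι ⊕ ι) (ι ⊕ ι) A) = 1 := by
  have h : (1 : Matrix (ι ⊕ ι) (ι ⊕ ι) A) = fromBlocks 1 0 0 1 := fromBlocks_one.symm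
  rw [h]
  simp only [xt, toBlocks_fromBlocks₁₁, toBlocks_fromBlocks₁₂,
    toBlocks_fromBlocks₂₁, toBlocks_fromBlocks₂₂]
  simp only [fromBlocks_one, fromBlocks_zero]

theorem diagOn_xt (τ : Type*) [Fintype τ] [DecidableEq τ] {ι : Type*} [Fintype ι] [DecidableEq ι]
    (s : Finset ι) : diagOn A (s.map (Function.Embedding.inl (β := τ))) =
      fromBlocks (diagOn A s) 0 0 0 := by
  ext i j
  rcases i with i | i <;> rcases j with j | j <;>
    simp [diagOn, Matrix.diagonal_apply]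

theorem xt_mem (τ : Type*) [Fintype τ] [DecidableEq τ] {ι : Type*} [Fintype ι] [DecidableEq ι]
    {u : Matrix (ι ⊕ ι) (ι ⊕ ι) A} (hu : EU ε u) : EU ε (xt τ u) := by
  induction hu with
  | one =>
    rw [xt_one]
    exact EU.one
  | diag c c' h h' u _ ih =>
    rw [xt_mul]
    have h1 : xt τ (fromBlocks c 0 0 c'ᴴ) =
        fromBlocks (fromBlocks c 0 0 1) 0 0 (fromBlocks c' 0 0 1)ᴴ := by
      simp only [xt, toBlocks_fromBlocks₁₁, toBlocks_fromBlocks₁₂,
        toBlocks_fromBlocks₂₁, toBlocks_fromBlocks₂₂, fromBlocks_conjTranspose, fromBlocks_zero,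
        conjTranspose_zero, conjTranspose_one]
    rw [h1]
    refine EU.diag _ _ ?_ ?_ _ ih
    · simp [fromBlocks_multiply, h]
    · simp [fromBlocks_multiply, h']
  | low Z u _ ih =>
    rw [xt_mul]
    have h1 : xt τ (fromBlocks (1 : Matrix ι ι A) 0 (Z - (ε : ℤ) • Zᴴ) 1) =
        fromBlocks 1 0 (fromBlocks Z 0 0 0 - (ε : ℤ) • (fromBlocks Z 0 0 0)ᴴ) 1 := by
      simp only [xt, toBlocks_fromBlocks₁₁, toBlocks_fromBlocks₁₂,
        toBlocks_fromBlocks₂₁, toBlocks_fromBlocks₂₂, fromBlocks_conjTranspose, fromBlocks_zero,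
        conjTranspose_zero, fromBlocks_one, fromBlocks_smul, fromBlocks_sub', smul_zero, sub_zero]
    rw [h1]
    exact EU.low _ _ ih
  | flip s u _ ih =>
    rw [xt_mul]
    have h2 : (1 : Matrix (ι ⊕ τ) (ι ⊕ τ) A) - fromBlocks (diagOn A s) 0 0 0 =
        fromBlocks (1 - diagOn A s) 0 0 1 := by
      rw [← fromBlocks_one, fromBlocks_sub']
      simp only [sub_zero]
    have h1 : xt τ (fromBlocks (1 - diagOn A s) ((ε : ℤ) • diagOn A s) (diagOn A s)
          (1 - diagOn A s)) =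
        fromBlocks (1 - diagOn A (s.map (Function.Embedding.inl (β := τ))))
          ((ε : ℤ) • diagOn A (s.map (Function.Embedding.inl (β := τ))))
          (diagOn A (s.map (Function.Embedding.inl (β := τ))))
          (1 - diagOn A (s.map (Function.Embedding.inl (β := τ)))) := by
      rw [diagOn_xt, h2]
      simp only [xt, toBlocks_fromBlocks₁₁, toBlocks_fromBlocks₁₂,
        toBlocks_fromBlocks₂₁, toBlocks_fromBlocks₂₂, fromBlocks_smul, smul_zero]
    rw [h1]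
    exact EU.flip _ _ ih

/-- the stabilization -/
def sb (τ : Type*) [DecidableEq τ] {J K : Type*} (α β : Matrix J K A) :
    Matrix ((J ⊕ τ) ⊕ (J ⊕ τ)) (K ⊕ τ) A :=
  fromRows (fromBlocks α 0 0 1) (fromBlocks β 0 0 0)

/-- images of the standard Lagrangian -/
def T (ε : ℤˣ) {J K : Type*} [Fintype J] [DecidableEq J] [Fintype K] [DecidableEq K]
    (L : Matrix (J ⊕ J) K A) : Prop :=
  ∃ (u : Matrix (J ⊕ J) (J ⊕ J) A) (c : Matrix J K A) (c' : Matrix K J A),
    EU ε u ∧ c * c' = 1 ∧ c' * c = 1 ∧ L = u * fromRows c (0 : Matrix J K A)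

section

variable {J K : Type*} [Fintype J] [DecidableEq J] [Fintype K] [DecidableEq K]

theorem T1 {L : Matrix (J ⊕ J) K A} (h : T ε L) {u : Matrix (J ⊕ J) (J ⊕ J) A} (hu : EU ε u)
    {c c' : Matrix K K A} (hc : c * c' = 1) (hc' : c' * c = 1) : T ε (u * L * c) := by
  obtain ⟨u', d, d', h1, h2, h3, rfl⟩ := h
  refine ⟨u * u', d * c, c' * d', mul_mem hu h1, ?_, ?_, ?_⟩
  · rw [Matrix.mul_assoc, ← Matrix.mul_assoc c, hc, Matrix.one_mul, h2]
  · rw [Matrix.mul_assoc, ← Matrix.mul_assoc d', h3, Matrix.one_mul, hc']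
  · rw [Matrix.mul_assoc, Matrix.mul_assoc, Matrix.mul_assoc, fromRows_mul, Matrix.zero_mul]

theorem T2 {J' K' : Type*} [Fintype J'] [DecidableEq J'] [Fintype K'] [DecidableEq K']
    (e : J' ≃ J) (f : K' ≃ K) {L : Matrix (J ⊕ J) K A} (h : T ε L) :
    T ε (L.submatrix (Equiv.sumCongr e e) f) := by
  obtain ⟨u, d, d', h1, h2, h3, rfl⟩ := h
  refine ⟨u.submatrix (Equiv.sumCongr e e) (Equiv.sumCongr e e), d.submatrix e f,
    d'.submatrix f e, reindex e h1, ?_, ?_, ?_⟩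
  · rw [Matrix.submatrix_mul_equiv, h2, Matrix.submatrix_one_equiv]
  · rw [Matrix.submatrix_mul_equiv, h3, Matrix.submatrix_one_equiv]
  · rw [← Matrix.submatrix_mul_equiv _ _ _ (Equiv.sumCongr e e) _]
    congr 1
    ext i j
    rcases i with i | i <;> rfl

theorem T3 (τ : Type*) [Fintype τ] [DecidableEq τ] {α β : Matrix J K A}
    (h : T ε (fromRows α β)) : T ε (sb τ α β) := by
  obtain ⟨u, d, d', h1, h2, h3, h4⟩ := h
  refine ⟨xt τ u, fromBlocks d 0 0 1, fromBlocks d' 0 0 1, xt_mem τ h1, ?_, ?_, ?_⟩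
  · simp [fromBlocks_multiply, h2]
  · simp [fromBlocks_multiply, h3]
  · rw [← fromBlocks_toBlocks u, fromBlocks_mul_fromRows] at h4
    obtain ⟨h5, h6⟩ := fromRows_inj h4
    rw [Matrix.mul_zero, add_zero] at h5 h6
    rw [sb, xt, fromBlocks_mul_fromRows, h5, h6]
    simp [fromBlocks_multiply]

theorem sb_rel (τ : Type*) [Fintype τ] [DecidableEq τ] {α β α' β' : Matrix J K A}
    {u : Matrix (J ⊕ J) (J ⊕ J) A} {c : Matrix K K A}
    (h : fromRows α β = u * (fromRows α' β' : Matrix (J ⊕ J) K A) * c) :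
    sb τ α β = xt τ u * sb τ α' β' * (fromBlocks c 0 0 1 : Matrix (K ⊕ τ) (K ⊕ τ) A) := by
  rw [← fromBlocks_toBlocks u, fromBlocks_mul_fromRows, fromRows_mul] at h
  obtain ⟨h5, h6⟩ := fromRows_inj h
  rw [sb, sb, xt, fromBlocks_mul_fromRows, fromRows_mul, h5, h6]
  simp [fromBlocks_multiply, fromBlocks_add]

end

/-- exchange of two stabilizations -/
theorem sb_swap {J K : Type*} [Fintype J] [DecidableEq J] [Fintype K] [DecidableEq K]
    (σ τ : Type*) [Fintype σ] [DecidableEq σ] [Fintype τ] [DecidableEq τ] (α β : Matrix J K A) :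
    ∃ (e : (J ⊕ σ) ⊕ τ ≃ (J ⊕ τ) ⊕ σ) (f : (K ⊕ σ) ⊕ τ ≃ (K ⊕ τ) ⊕ σ),
      sb τ (fromBlocks α 0 0 1 : Matrix (J ⊕ σ) (K ⊕ σ) A) (fromBlocks β 0 0 0) =
        (sb σ (fromBlocks α 0 0 1 : Matrix (J ⊕ τ) (K ⊕ τ) A) (fromBlocks β 0 0 0)).submatrix
          (Equiv.sumCongr e e) f := by
  refine ⟨⟨fun x => Sum.elim (Sum.elim (fun j => Sum.inl (Sum.inl j)) Sum.inr)
      (fun t => Sum.inl (Sum.inr t)) x, fun x => Sum.elim (Sum.elim (fun j => Sum.inl (Sum.inl j))
      Sum.inr) (fun t => Sum.inl (Sum.inr t)) x, ?_, ?_⟩,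
    ⟨fun x => Sum.elim (Sum.elim (fun j => Sum.inl (Sum.inl j)) Sum.inr)
      (fun t => Sum.inl (Sum.inr t)) x, fun x => Sum.elim (Sum.elim (fun j => Sum.inl (Sum.inl j))
      Sum.inr) (fun t => Sum.inl (Sum.inr t)) x, ?_, ?_⟩, ?_⟩
  · rintro ((j | s) | t) <;> rfl
  · rintro ((j | s) | t) <;> rfl
  · rintro ((j | s) | t) <;> rfl
  · rintro ((j | s) | t) <;> rfl
  · ext i j
    rcases i with ((i | i) | i) | ((i | i) | i) <;> rcases j with (j | j) | j <;>
      simp [sb, Matrix.one_apply]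

/-- two stabilizations -/
theorem sb_sb {J K : Type*} [Fintype J] [DecidableEq J] [Fintype K] [DecidableEq K]
    (a m : ℕ) (α β : Matrix J K A) :
    ∃ (e : J ⊕ Fin (a + m) ≃ (J ⊕ Fin a) ⊕ Fin m) (f : K ⊕ Fin (a + m) ≃ (K ⊕ Fin a) ⊕ Fin m),
      sb (Fin (a + m)) α β =
        (sb (Fin m) (fromBlocks α 0 0 1 : Matrix (J ⊕ Fin a) (K ⊕ Fin a) A)
          (fromBlocks β 0 0 0)).submatrix (Equiv.sumCongr e e) f := by
  refine ⟨((Equiv.refl J).sumCongr finSumFinEquiv.symm).trans (Equiv.sumAssoc J (Fin a) (Fin m)).symm,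
    ((Equiv.refl K).sumCongr finSumFinEquiv.symm).trans (Equiv.sumAssoc K (Fin a) (Fin m)).symm, ?_⟩
  have key : ∀ i j : Fin (a + m), (1 : Matrix (Fin (a + m)) (Fin (a + m)) A) i j =
      (1 : Matrix (Fin a ⊕ Fin m) (Fin a ⊕ Fin m) A) (finSumFinEquiv.symm i)
        (finSumFinEquiv.symm j) := by
    intro i j
    simp [Matrix.one_apply]
  ext i j
  rcases i with (i | i) | (i | i) <;> rcases j with j | j
  · rfl
  · simp only [sb, fromRows_apply_inl, fromBlocks_apply₁₂, Matrix.submatrix_apply,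
      Equiv.sumCongr_apply, Sum.map_inl, Equiv.trans_apply, Sum.map_inr]
    rcases h : finSumFinEquiv.symm j with j' | j' <;> simp
  · simp only [sb, fromRows_apply_inl, fromBlocks_apply₂₁, Matrix.submatrix_apply,
      Equiv.sumCongr_apply, Sum.map_inl, Equiv.trans_apply, Sum.map_inr]
    rcases h : finSumFinEquiv.symm i with i' | i' <;> simp
  · simp only [sb, fromRows_apply_inl, fromBlocks_apply₂₂, Matrix.submatrix_apply,
      Equiv.sumCongr_apply, Sum.map_inl, Equiv.trans_apply, Sum.map_inr, key]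
    rcases h : finSumFinEquiv.symm i with i' | i' <;>
      rcases h' : finSumFinEquiv.symm j with j' | j' <;> simp [Matrix.one_apply]
  · rfl
  · simp only [sb, fromRows_apply_inr, fromBlocks_apply₁₂, Matrix.submatrix_apply,
      Equiv.sumCongr_apply, Sum.map_inl, Equiv.trans_apply, Sum.map_inr]
    rcases h : finSumFinEquiv.symm j with j' | j' <;> simp
  · simp only [sb, fromRows_apply_inr, fromBlocks_apply₂₁, Matrix.submatrix_apply,
      Equiv.sumCongr_apply, Sum.map_inl, Equiv.trans_apply, Sum.map_inr]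
    rcases h : finSumFinEquiv.symm i with i' | i' <;> simp
  · simp only [sb, fromRows_apply_inr, fromBlocks_apply₂₂, Matrix.submatrix_apply,
      Equiv.sumCongr_apply, Sum.map_inl, Equiv.trans_apply, Sum.map_inr]
    rcases h : finSumFinEquiv.symm i with i' | i' <;>
      rcases h' : finSumFinEquiv.symm j with j' | j' <;> simp

end GRPAux

theorem specGRP : SpecGRP := by
  intro A _ _ ε
  refine ⟨fun ι _ _ u v hu hv => GRPAux.mul_mem hu hv, ?_⟩
  intro ι κ _ _ _ _ α β α' β' a u c c' hu hc hc' h hst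
  obtain ⟨m, u', d, d', h1, h2, h3, h4⟩ := hst
  have t1 : GRPAux.T ε (GRPAux.sb (Fin m) α' β') := ⟨u', d, d', h1, h2, h3, h4⟩
  have t2 : GRPAux.T ε (GRPAux.sb (Fin a) (fromBlocks α' 0 0 1 : Matrix (ι ⊕ Fin m) (κ ⊕ Fin m) A)
      (fromBlocks β' 0 0 0)) := GRPAux.T3 (Fin a) t1
  obtain ⟨e, f, hef⟩ := GRPAux.sb_swap (Fin a) (Fin m) α' β'
  have t3 := GRPAux.T2 e f t2
  rw [← hef] at t3
  have hrel := GRPAux.sb_rel (Fin m) (α := fromBlocks α 0 0 1) (β := fromBlocks β 0 0 0)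
    (α' := fromBlocks α' 0 0 1) (β' := fromBlocks β' 0 0 0) (u := u) (c := c) h
  have t4 := GRPAux.T1 t3 (GRPAux.xt_mem (Fin m) hu)
    (c := (fromBlocks c 0 0 1 : Matrix ((κ ⊕ Fin a) ⊕ Fin m) ((κ ⊕ Fin a) ⊕ Fin m) A))
    (c' := fromBlocks c' 0 0 1) (by simp [fromBlocks_multiply, hc])
    (by simp [fromBlocks_multiply, hc'])
  rw [← hrel] at t4
  obtain ⟨e', f', hef'⟩ := GRPAux.sb_sb a m α β
  have t5 := GRPAux.T2 e' f' t4
  rw [← hef'] at t5
  obtain ⟨U, C, C', k1, k2, k3, k4⟩ := t5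
  exact ⟨a + m, U, C, C', k1, k2, k3, k4⟩

end Pool.Agent.Lib.MP8a3537.UO
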