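import Pool.Agent.Lib.MP_8a3537_gt.UO.Spec
import Pool.Agent.Lib.MP_8a3537_gt.UV.IND
import Pool.Agent.Lib.MP_8a3537_gt.UV.STK

/-!
# UO, module IDO: the induction on the number of prime factors of the determinant
-/

namespace Pool.Agent.Lib.MP8a3537.UO

open Matrix Pool.Agent.Lib.MP8a3537.UV

namespace IDOAux

/-! ### Number of prime factors -/

section Count

variable {D : Type} [CommRing D] [IsDomain D] [IsPrincipalIdealRing D]

/-- The number of prime factors. -/
noncomputable def npf (x : D) : ℕ := Multiset.card (UniqueFactorizationMonoid.factors x)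

theorem npf_eq {x : D} (hx : x ≠ 0) {s : Multiset D} (hs : ∀ p ∈ s, Irreducible p)
    (h : Associated s.prod x) : npf x = Multiset.card s := by
  have h1 := UniqueFactorizationMonoid.factors_unique
    (fun p hp => UniqueFactorizationMonoid.irreducible_of_factor p hp) hs
    ((UniqueFactorizationMonoid.factors_prod hx).trans h.symm)
  exact Multiset.card_eq_card_of_rel h1

theorem npf_mul_prime {x p : D} (hx : x ≠ 0) (hp : Prime p) : npf (x * p) = npf x + 1 := by
  have h1 : x * p ≠ 0 := mul_ne_zero hx hp.ne_zero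
  rw [npf_eq h1 (s := p ::ₘ UniqueFactorizationMonoid.factors x)]
  · rw [Multiset.card_cons]
    rfl
  · intro q hq
    rw [Multiset.mem_cons] at hq
    rcases hq with rfl | hq
    · exact hp.irreducible
    · exact UniqueFactorizationMonoid.irreducible_of_factor q hq
  · rw [Multiset.prod_cons, mul_comm]
    exact (UniqueFactorizationMonoid.factors_prod hx).mul_right p

theorem npf_assoc {x y : D} (hx : x ≠ 0) (hy : y ≠ 0) (h : Associated x y) : npf x = npf y := by
  refine npf_eq hx (fun p hp => UniqueFactorizationMonoid.irreducible_of_factor p hp) ?_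
  exact (UniqueFactorizationMonoid.factors_prod hy).trans h.symm

theorem npf_star [StarRing D] {x : D} (hx : x ≠ 0) : npf (star x) = npf x := by
  have h1 : star x ≠ 0 := fun h => hx (by rw [← star_star x, h, star_zero])
  rw [npf_eq h1 (s := (UniqueFactorizationMonoid.factors x).map (starRingAut (R := D)))]
  · rw [Multiset.card_map]
    rfl
  · intro q hq
    rw [Multiset.mem_map] at hq
    obtain ⟨a, ha, rfl⟩ := hq
    exact (MulEquiv.irreducible_iff (starRingAut (R := D))).2
      (UniqueFactorizationMonoid.irreducible_of_factor a ha)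
  · rw [← map_multiset_prod]
    have h2 := (UniqueFactorizationMonoid.factors_prod hx).map (starRingAut (R := D))
    exact h2

end Count

/-! ### Matrices -/

section Ext

variable {D G : Type} [CommRing D] [Group G] {H : Subgroup G}

theorem ext_mul {n : Type} [Fintype n] (M N : Matrix n n (MonoidAlgebra D H)) :
    ext (M * N) = ext M * ext N := by
  unfold ext
  exact Matrix.map_mul

theorem ext_one {n : Type} [DecidableEq n] :
    ext (1 : Matrix n n (MonoidAlgebra D H)) = 1 := by
  unfold ext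
  exact Matrix.map_one _ (map_zero _) (map_one _)

theorem ext_star [StarRing D] {n : Type} (M : Matrix n n (MonoidAlgebra D H)) :
    (ext M)ᴴ = ext Mᴴ :=
  STKAux.conjTranspose_map_emb H M

theorem ext_neg_units {n : Type} (ε : ℤˣ) (M : Matrix n n (MonoidAlgebra D H)) :
    ext (-((ε : ℤ) • M)) = -((ε : ℤ) • ext M) := by
  unfold ext
  refine Matrix.ext fun i j => ?_
  simp only [Matrix.map_apply, Matrix.neg_apply, Matrix.smul_apply, map_neg, map_zsmul]

theorem supp_ext {n : Type} (M : Matrix n n (MonoidAlgebra D H)) :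
    SuppIn (H : Set G) (ext M) := by
  intro i j g hg
  by_contra hc
  exact hg (STKAux.emb_coeff_of_notMem H (M i j) g hc)

theorem aug_single (g : G) (r : D) : aug D G (MonoidAlgebra.single g r) = r := by
  simp [aug]

theorem aug_star [StarRing D] (x : MonoidAlgebra D G) : aug D G (star x) = star (aug D G x) := by
  induction x using MonoidAlgebra.induction_linear with
  | zero => simp
  | add f g hf hg => simp only [map_add, star_add, hf, hg]
  | single a r => rw [star_single, aug_single, aug_single]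

theorem aug_smul (q : D) (x : MonoidAlgebra D G) : aug D G (q • x) = q * aug D G x := by
  induction x using MonoidAlgebra.induction_linear with
  | zero => simp
  | add f g hf hg => simp only [smul_add, map_add, hf, hg, mul_add]
  | single a r => rw [MonoidAlgebra.smul_single, aug_single, aug_single, smul_eq_mul]

theorem det_ne_zero [IsDomain D] {n : ℕ} {q : D} (hq : q ≠ 0)
    {d e : Matrix (Fin n) (Fin n) (MonoidAlgebra D G)}
    (h : d * e = q • (1 : Matrix (Fin n) (Fin n) (MonoidAlgebra D G))) :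
    (d.map (aug D G)).det ≠ 0 := by
  intro h0
  have h1 := congrArg (fun M : Matrix (Fin n) (Fin n) (MonoidAlgebra D G) =>
    (M.map (aug D G)).det) h
  simp only [Matrix.map_mul, det_mul, h0, zero_mul] at h1
  have h2 : (q • (1 : Matrix (Fin n) (Fin n) (MonoidAlgebra D G))).map (aug D G) =
      q • (1 : Matrix (Fin n) (Fin n) D) := by
    refine Matrix.ext fun i j => ?_
    simp only [Matrix.map_apply, Matrix.smul_apply, aug_smul, smul_eq_mul]
    by_cases hij : i = j
    · subst hij
      simp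
    · simp [Matrix.one_apply_ne hij]
  rw [h2, det_smul, det_one, mul_one] at h1
  exact pow_ne_zero _ hq h1.symm

theorem det_swap [StarRing D] (ε : ℤˣ) {n : ℕ}
    (d : Matrix (Fin n) (Fin n) (MonoidAlgebra D G)) :
    Associated (((-((ε : ℤ) • dᴴ)).map (aug D G)).det) (star ((d.map (aug D G)).det)) := by
  have h1 : (-((ε : ℤ) • dᴴ)).map (aug D G) = (((-ε : ℤˣ) : ℤ) : D) • (d.map (aug D G))ᴴ := by
    refine Matrix.ext fun i j => ?_
    simp only [Matrix.map_apply, Matrix.neg_apply, Matrix.smul_apply, conjTranspose_apply,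
      map_neg, map_zsmul, aug_star]
    rcases Int.units_eq_one_or ε with rfl | rfl <;> simp
  rw [h1, det_smul, det_conjTranspose]
  have h2 : IsUnit ((((-ε : ℤˣ) : ℤ) : D) ^ Fintype.card (Fin n)) := by
    apply IsUnit.pow
    exact ((-ε : ℤˣ).isUnit).map (Int.castRingHom D)
  obtain ⟨u, hu⟩ := h2
  rw [← hu, mul_comm]
  exact (associated_mul_unit_right _ _ u.isUnit).symm

end Ext

section Main

variable {D G : Type} [CommRing D] [IsDomain D] [IsPrincipalIdealRing D] [StarRing D] [Group G]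
  {H : Subgroup G}

/-- Tate vanishing. -/
theorem even_of (hTAT : SpecTAT) {X : Set G} (ε : ℤˣ) {n : ℕ}
    {M : Matrix (Fin n) (Fin n) (MonoidAlgebra D G)} (hi : ∀ x ∈ X, x⁻¹ ∈ X)
    (hn : ∀ x ∈ X, x⁻¹ ≠ x) (hM : SuppIn X M) (hs : M = -((ε : ℤ) • Mᴴ)) :
    ∃ Z, M = Z - (ε : ℤ) • Zᴴ := by
  obtain ⟨Z, -, hZ⟩ := hTAT D G X (-ε) n M hi hn hM (by rw [INDAux.neg_units]; exact hs)
  refine ⟨Z, ?_⟩
  rw [INDAux.neg_units] at hZ
  rw [hZ, sub_eq_add_neg]

theorem step (hEMO : SpecEMO) (hMOV : SpecMOV) (hSTP : SpecSTP) (hTAT : SpecTAT)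
    (hWA : ∀ (k : Type) [Field k], WA k H) {N : ℕ}
    {X1 X2 X3 Yp Ym : Set G} (P : PingPong H X1 X2 X3 Yp Ym) {ε : ℤˣ} {n : ℕ} {q : D}
    (IH : ∀ (d e : Matrix (Fin n) (Fin n) (MonoidAlgebra D H))
      (f g m m' : Matrix (Fin n) (Fin n) (MonoidAlgebra D G)), OD H X1 X2 X3 ε q d e f g m m' →
      npf (d.map (aug D H)).det < N → StablyTrivial ε (VA f g m m') (VB ε (ext d)))
    {d e : Matrix (Fin n) (Fin n) (MonoidAlgebra D H)}
    {f g m m' : Matrix (Fin n) (Fin n) (MonoidAlgebra D G)} (hOD : OD H X1 X2 X3 ε q d e f g m m')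
    (hN : npf (d.map (aug D H)).det = N) {p : D} (hp : Prime p)
    (hz : ∃ z : Fin n → MonoidAlgebra D H, ¬ Dv p z ∧ Dv p (d *ᵥ z) ∧ Dv p (g *ᵥ extv z) ∧
      Dv p (m *ᵥ extv z)) :
    StablyTrivial ε (VA f g m m') (VB ε (ext d)) := by
  obtain ⟨c, d', g', m1', hd, hg, hm, hsg, hsm, hc1, hc2, hdet⟩ := hMOV D G H n d g m p hp hWA hz
  have hg'X := hsg X1 P.X1r hOD.sg
  have hm'X := hsm X3 P.X3r hOD.sm
  subst hd hg hm
  have hOD' := (hSTP D G H X1 X2 X3 ε n q e f m').1 c d' g' m1' P.X2l P.X3l hg'X hm'X hc1 hc2 hOD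
  have hne := det_ne_zero hOD.q0 hOD.de
  have hlt : npf (d'.map (aug D H)).det < N := by
    rw [Matrix.map_mul, det_mul, hdet] at hN
    have h0 : (d'.map (aug D H)).det ≠ 0 := det_ne_zero hOD'.q0 hOD'.de
    rw [npf_mul_prime h0 hp] at hN
    omega
  have h1 := IH d' (c * e) (ext c * f) g' (ext c * m1') m' hOD' hlt
  rw [ext_mul]
  refine hEMO _ ε n (ext c) (ext d') g' m1' f m' ?_ ?_ h1
  · have h2 := hOD'.dm
    rw [← Matrix.mul_assoc] at h2
    exact h2
  · refine even_of hTAT ε P.X1i P.X1n ?_ hOD'.dg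
    rw [ext_star]
    exact INDAux.supp_mul (supp_ext _) hg'X (fun x hx y hy => P.X1l x hx y hy)

theorem main (hEMO : SpecEMO) (hTRM : SpecTRM) (hSWO : SpecSWO) (hRED : SpecRED) (hMOV : SpecMOV)
    (hEND : SpecEND) (hSTP : SpecSTP) (hTAT : SpecTAT)
    (hWA : ∀ (k : Type) [Field k], WA k H) (N : ℕ) :
    ∀ {X1 X2 X3 Yp Ym : Set G} (_ : PingPong H X1 X2 X3 Yp Ym) (ε : ℤˣ) (n : ℕ) (q : D)
      (d e : Matrix (Fin n) (Fin n) (MonoidAlgebra D H))
      (f g m m' : Matrix (Fin n) (Fin n) (MonoidAlgebra D G)), OD H X1 X2 X3 ε q d e f g m m' →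
      npf (d.map (aug D H)).det = N → StablyTrivial ε (VA f g m m') (VB ε (ext d)) := by
  induction N using Nat.strong_induction_on with
  | _ N ih =>
    intro X1 X2 X3 Yp Ym P ε n q d e f g m m' hOD hN
    have hne := det_ne_zero hOD.q0 hOD.de
    by_cases hinv : ∃ di : Matrix (Fin n) (Fin n) (MonoidAlgebra D H), d * di = 1 ∧ di * d = 1
    · obtain ⟨di, h1, h2⟩ := hinv
      refine hTRM _ ε n (ext d) (ext di) f g m m' ?_ ?_ hOD.dm ?_ ?_
      · rw [← ext_mul, h1, ext_one]
      · rw [← ext_mul, h2, ext_one]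
      · refine even_of hTAT ε P.X2i P.X2n ?_ hOD.df
        exact INDAux.supp_mul (supp_ext _) hOD.sf (fun x hx y hy => P.X2l x hx y hy)
      · refine even_of hTAT ε P.X1i P.X1n ?_ hOD.dg
        rw [ext_star]
        exact INDAux.supp_mul (supp_ext _) hOD.sg (fun x hx y hy => P.X1l x hx y hy)
    · have hex : ∃ p : D, Prime p ∧ ∃ z : Fin n → MonoidAlgebra D H, Dv p (d *ᵥ z) ∧ ¬ Dv p z := by
        by_contra hc
        push Not at hc
        exact hinv (hEND D H n q d e hOD.q0 hOD.de hOD.ed (fun p hp z hz => hc p hp z hz))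
      obtain ⟨p, hp, z, hz1, hz2⟩ := hex
      by_cases hA : ∃ z : Fin n → MonoidAlgebra D H, ¬ Dv p z ∧ Dv p (d *ᵥ z) ∧
          Dv p (g *ᵥ extv z) ∧ Dv p (m *ᵥ extv z)
      · refine step hEMO hMOV hSTP hTAT hWA P (N := N) ?_ hOD hN hp hA
        intro d' e' f' g' m1 m2 h1 h2
        exact ih _ h2 P ε n q d' e' f' g' m1 m2 h1 rfl
      · have hB : ∃ z : Fin n → MonoidAlgebra D H, ¬ Dv p z ∧ Dv p (dᴴ *ᵥ z) ∧
            Dv p (f *ᵥ extv z) ∧ Dv p (m'ᴴ *ᵥ extv z) := by
          by_contra hc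
          push Not at hA hc
          refine hz2 (hRED D G H X1 X2 X3 Yp Ym P ε n q d e f g m m' hOD p hp ?_ ?_ z hz1)
          · intro z a1 a2 a3
            by_contra a4
            exact hA z a4 a1 a2 a3
          · intro z a1 a2 a3
            by_contra a4
            exact hc z a4 a1 a2 a3
        have hOD2 := (hSTP D G H X1 X2 X3 ε n q e f m').2 d g m hOD
        apply hSWO
        rw [ext_star, ← ext_neg_units]
        refine step hEMO hMOV hSTP hTAT hWA (INDAux.pp_swap P) (N := N) ?_ hOD2 ?_ hp ?_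
        · intro d' e' f' g' m1 m2 h1 h2
          exact ih _ h2 (INDAux.pp_swap P) ε n (star q) d' e' f' g' m1 m2 h1 rfl
        · rw [← hN, ← npf_star hne]
          refine npf_assoc ?_ ?_ (det_swap ε d)
          · exact det_ne_zero hOD2.q0 hOD2.de
          · intro h
            apply hne
            rw [← star_star ((d.map (aug D H)).det), h, star_zero]
        · obtain ⟨z, b1, b2, b3, b4⟩ := hB
          refine ⟨z, b1, ?_, b3, b4⟩
          obtain ⟨y, hy⟩ := b2
          refine ⟨-((ε : ℤ) • y), ?_⟩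
          rw [Matrix.neg_mulVec, Matrix.smul_mulVec, hy, smul_neg, smul_comm]

end Main

end IDOAux

/-- **Module IDO**. -/
theorem specIDO (hEMO : SpecEMO) (hTRM : SpecTRM) (hSWO : SpecSWO) (hRED : SpecRED)
    (hMOV : SpecMOV) (hEND : SpecEND) (hSTP : SpecSTP) (hTAT : SpecTAT) : SpecIDO := by
  intro D G _ _ _ _ _ H X1 X2 X3 Yp Ym P hWA ε n q d e f g m m' hOD
  exact IDOAux.main hEMO hTRM hSWO hRED hMOV hEND hSTP hTAT hWA _ P ε n q d e f g m m' hOD rfl

end Pool.Agent.Lib.MP8a3537.UO
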