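import Pool.Agent.Lib.MP_8a3537_gt.UO.Spec
import Pool.Agent.Lib.MP_8a3537_gt.UV.RES

/-!
# KER: ping-pong (proof of `SpecKER`)
-/

namespace Pool.Agent.Lib.MP8a3537.UO

open Matrix Pool.Agent.Lib.MP8a3537.UV

namespace KERAux

variable {k G : Type} [Ring k] [Group G] {H : Subgroup G}

/-- A product with support in `Z` as soon as `X Y ⊆ Z`. -/
theorem exists_mul {n : ℕ} {c : Type} {X Y : Set G} (M : Matrix (Fin n) (Fin n) (MonoidAlgebra k G))
    (W : Matrix (Fin n) c (MonoidAlgebra k G)) (hM : SuppIn X M) (hW : SuppIn Y W) (i : Fin n)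
    (j : c) (g : G) (hg : ((M * W) i j).coeff g ≠ 0) : ∃ x ∈ X, ∃ y ∈ Y, x * y = g := by
  classical
  rw [Matrix.mul_apply] at hg
  obtain ⟨l, hl⟩ := UV.RESAux.exists_of_coeff_sum_ne _ _ _ hg
  have h2 := MonoidAlgebra.support_coeff_mul_subset (M i l) (W l j)
    (Finsupp.mem_support_iff.2 hl.2)
  obtain ⟨x, hx, y, hy, hxy⟩ := Finset.mem_mul.1 h2
  exact ⟨x, hM i l x (Finsupp.mem_support_iff.1 hx), y, hW l j y (Finsupp.mem_support_iff.1 hy), hxy⟩

theorem supp_mul {n : ℕ} {c : Type} {X Y Z : Set G} (h : ∀ x ∈ X, ∀ y ∈ Y, x * y ∈ Z)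
    (M : Matrix (Fin n) (Fin n) (MonoidAlgebra k G))
    (W : Matrix (Fin n) c (MonoidAlgebra k G)) (hM : SuppIn X M) (hW : SuppIn Y W) :
    SuppIn Z (M * W) := by
  intro i j g hg
  obtain ⟨x, hx, y, hy, rfl⟩ := exists_mul M W hM hW i j g hg
  exact h x hx y hy

theorem supp_add {m c : Type} {Z : Set G} (U V : Matrix m c (MonoidAlgebra k G))
    (hU : SuppIn Z U) (hV : SuppIn Z V) : SuppIn Z (U + V) := by
  intro i j g hg
  by_cases h : (U i j).coeff g = 0
  · refine hV i j g fun h' => hg ?_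
    rw [Matrix.add_apply, MonoidAlgebra.coeff_add, Finsupp.add_apply, h, h', add_zero]
  · exact hU i j g h

/-- The two summands vanish if their supports are disjoint. -/
theorem disjoint_add {n : ℕ} {c : Type} {X Y X' Y' : Set G}
    (h : ∀ x ∈ X, ∀ y ∈ Y, ∀ x' ∈ X', ∀ y' ∈ Y', x * y ≠ x' * y')
    (M M' : Matrix (Fin n) (Fin n) (MonoidAlgebra k G)) (W W' : Matrix (Fin n) c (MonoidAlgebra k G))
    (hM : SuppIn X M) (hW : SuppIn Y W) (hM' : SuppIn X' M') (hW' : SuppIn Y' W')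
    (h0 : M * W + M' * W' = 0) : M * W = 0 ∧ M' * W' = 0 := by
  have key : ∀ i j g, ((M * W) i j).coeff g = 0 ∧ ((M' * W') i j).coeff g = 0 := by
    intro i j g
    have h1 : ((M * W) i j).coeff g + ((M' * W') i j).coeff g = 0 := by
      have := congrArg (fun z => MonoidAlgebra.coeff z g) (congrFun (congrFun h0 i) j)
      simpa [Matrix.add_apply, MonoidAlgebra.coeff_add, Finsupp.add_apply] using this
    by_cases ha : ((M * W) i j).coeff g = 0
    · exact ⟨ha, by rwa [ha, zero_add] at h1⟩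
    · have hb : ((M' * W') i j).coeff g ≠ 0 := by
        intro hb
        rw [hb, add_zero] at h1
        exact ha h1
      obtain ⟨x, hx, y, hy, hxy⟩ := exists_mul M W hM hW i j g ha
      obtain ⟨x', hx', y', hy', hxy'⟩ := exists_mul M' W' hM' hW' i j g hb
      exact absurd (hxy.trans hxy'.symm) (h x hx y hy x' hx' y' hy')
  constructor
  · ext i j g
    exact (key i j g).1
  · ext i j g
    exact (key i j g).2

/-- The column `z` over `k[G]`. -/
noncomputable def col {n : ℕ} (z : Fin n → MonoidAlgebra k H) :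
    Matrix (Fin n) Unit (MonoidAlgebra k G) := Matrix.of fun i _ => emb k H (z i)

/-- Decomposition along the right cosets of `H`. -/
theorem inj_of {n : ℕ} {X X' Y : Set G} (d : Matrix (Fin n) (Fin n) (MonoidAlgebra k H))
    (g m : Matrix (Fin n) (Fin n) (MonoidAlgebra k G))
    (hX : ∀ h ∈ H, ∀ x ∈ X, x * h ∈ X) (hX' : ∀ h ∈ H, ∀ x ∈ X', x * h ∈ X')
    (hY : ∀ h ∈ H, ∀ y ∈ Y, h * y ∈ Y) (hu : Disj H X Y) (hu' : Disj H X' Y)
    (hg : SuppIn X g) (hm : SuppIn X' m)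
    (hz : ∀ z : Fin n → MonoidAlgebra k H, d *ᵥ z = 0 → g *ᵥ extv z = 0 → m *ᵥ extv z = 0 → z = 0)
    {c : Type} (W : Matrix (Fin n) c (MonoidAlgebra k G)) (hW : SuppIn Y W) (h1 : ext d * W = 0)
    (h2 : g * W = 0) (h3 : m * W = 0) : W = 0 := by
  ext1 i j
  refine UV.RESAux.eq_zero_of_lres H _ fun s => ?_
  have aux : ∀ (M : Matrix (Fin n) (Fin n) (MonoidAlgebra k G)),
      (∀ t, (M.map (res H t)).map (emb k H) * W = 0) →
      M *ᵥ extv (fun l => lres H s (W l j)) = 0 := by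
    intro M hM
    funext i'
    refine UV.RESAux.eq_zero_of_res H _ fun t => ?_
    have h4 : (M.map (res H t)) * W.map (lres H s) = 0 := by
      rw [← UV.RESAux.map_lres_mul, hM t]
      ext1 a b
      simp [UV.RESAux.lres_zero]
    have h5 : ∑ l, res H t (M i' l) * lres H s (W l j) = 0 := by
      have := congrFun (congrFun h4 i') j
      simpa [Matrix.mul_apply] using this
    show res H t (∑ l, M i' l * emb k H (lres H s (W l j))) = 0
    rw [UV.RESAux.res_sum, ← h5]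
    exact Finset.sum_congr rfl fun l _ => UV.RESAux.res_mul_emb H t _ _
  have h6 : d *ᵥ (fun l => lres H s (W l j)) = 0 := by
    have h7 : d * W.map (lres H s) = 0 := by
      rw [← UV.RESAux.map_lres_mul]
      have : d.map (emb k H) * W = 0 := h1
      rw [this]
      ext1 a b
      simp [UV.RESAux.lres_zero]
    funext a
    have := congrFun (congrFun h7 a) j
    simpa [Matrix.mul_apply, Matrix.mulVec, dotProduct] using this
  exact congrFun (hz _ h6 (aux g fun t => UV.RESAux.DJ H g W X Y hX hY hu hg hW h2 t)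
    (aux m fun t => UV.RESAux.DJ H m W X' Y hX' hY hu' hm hW h3 t)) i

end KERAux

open KERAux in
theorem specKER : SpecKER := by
  intro k G _ _ H X1 X2 X3 Yp Ym P n d1 d2 f g m1 m2 m3 f3 g3 m4 hf hg hm1 hm2 e1 e2 e3 e4 hnil
    hz1 hz2
  obtain ⟨l, h, hl⟩ := hnil
  have hXi : ∀ x ∈ H, ∀ y ∈ Xinv X3, y * x ∈ Xinv X3 := by
    intro x hx y hy
    show (y * x)⁻¹ ∈ X3
    rw [_root_.mul_inv_rev]
    exact P.X3l x⁻¹ (H.inv_mem hx) _ hy
  -- injectivity
  have inj : ∀ (w1 w2 : Matrix (Fin n) Unit (MonoidAlgebra k G)), SuppIn Yp w1 → SuppIn Ym w2 →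
      ext d1 * w1 = 0 → ext d2 * w2 = 0 → m1 * w1 + f * w2 = 0 → g * w1 + m2 * w2 = 0 →
      w1 = 0 ∧ w2 = 0 := by
    intro w1 w2 s1 s2 a1 a2 b1 b2
    obtain ⟨c2, c1⟩ := disjoint_add P.d23 f m1 w2 w1 hf s2 hm1 s1 (by rw [add_comm]; exact b1)
    obtain ⟨c3, c4⟩ := disjoint_add P.d13 g m2 w1 w2 hg s1 hm2 s2 b2
    exact ⟨inj_of d1 g m1 P.X1r P.X3r P.Ypl P.u1 P.u3 hg hm1 hz1 w1 s1 a1 c3 c1,
      inj_of d2 f m2 P.X2r hXi P.Yml P.u2 P.u3' hf hm2 hz2 w2 s2 a2 c2 c4⟩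
  -- iteration
  have iter : ∀ (l : ℕ) (w1 w2 : Matrix (Fin n) Unit (MonoidAlgebra k G)), SuppIn Yp w1 →
      SuppIn Ym w2 → ext d1 * w1 = 0 → ext d2 * w2 = 0 →
      (fromBlocks m1 f g m2) ^ l * fromRows w1 w2 = 0 → w1 = 0 ∧ w2 = 0 := by
    intro l
    induction l with
    | zero =>
      intro w1 w2 _ _ _ _ h0
      rw [pow_zero, Matrix.one_mul] at h0
      constructor
      · ext1 i j
        exact congrFun (congrFun h0 (Sum.inl i)) j
      · ext1 i j
        exact congrFun (congrFun h0 (Sum.inr i)) j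
    | succ l ih =>
      intro w1 w2 s1 s2 a1 a2 h0
      rw [pow_succ, Matrix.mul_assoc, fromBlocks_mul_fromRows] at h0
      have t1 : SuppIn Yp (m1 * w1 + f * w2) :=
        supp_add _ _ (supp_mul P.X3Y m1 w1 hm1 s1) (supp_mul P.X2Y f w2 hf s2)
      have t2 : SuppIn Ym (g * w1 + m2 * w2) :=
        supp_add _ _ (supp_mul P.X1Y g w1 hg s1) (supp_mul P.X3Y' m2 w2 hm2 s2)
      have u1 : ext d1 * (m1 * w1 + f * w2) = 0 := by
        rw [Matrix.mul_add, ← Matrix.mul_assoc, ← Matrix.mul_assoc, e1, e2, Matrix.mul_assoc,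
          Matrix.mul_assoc, a1, a2, Matrix.mul_zero, Matrix.mul_zero, add_zero]
      have u2 : ext d2 * (g * w1 + m2 * w2) = 0 := by
        rw [Matrix.mul_add, ← Matrix.mul_assoc, ← Matrix.mul_assoc, e3, e4, Matrix.mul_assoc,
          Matrix.mul_assoc, a1, a2, Matrix.mul_zero, Matrix.mul_zero, add_zero]
      obtain ⟨v1, v2⟩ := ih _ _ t1 t2 u1 u2 h0
      exact inj w1 w2 s1 s2 a1 a2 v1 v2
  have all : ∀ (w1 w2 : Matrix (Fin n) Unit (MonoidAlgebra k G)), SuppIn Yp w1 →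
      SuppIn Ym w2 → ext d1 * w1 = 0 → ext d2 * w2 = 0 → w1 = 0 ∧ w2 = 0 := by
    intro w1 w2 s1 s2 a1 a2
    refine iter l w1 w2 s1 s2 a1 a2 ?_
    rw [hl, Matrix.mul_assoc, fromBlocks_mul_fromRows, a1, a2]
    simp [fromRows_zero]
  have hcoe : ∀ (Y : Set G), (1 : G) ∈ Y → (∀ h ∈ H, ∀ y ∈ Y, h * y ∈ Y) →
      ∀ z : Fin n → MonoidAlgebra k H,
      SuppIn Y (col z) := by
    intro Y h1 hY z i _ g hg
    have := hY g (UV.RESAux.mem_of_emb_ne (H := H) (z i) g hg) 1 h1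
    rwa [mul_one] at this
  have hmul : ∀ (d : Matrix (Fin n) (Fin n) (MonoidAlgebra k H)) (z : Fin n → MonoidAlgebra k H),
      d *ᵥ z = 0 →
      ext d * col (G := G) z = 0 := by
    intro d z hd
    ext1 i j
    have h1 : ∑ l, d i l * z l = 0 := congrFun hd i
    show ∑ l, emb k H (d i l) * emb k H (z l) = 0
    simp_rw [← map_mul]
    rw [← map_sum, h1, map_zero]
  have hemb : ∀ x : MonoidAlgebra k H, emb k H x = 0 → x = 0 := by
    intro x hx
    ext a
    have := congrArg (fun z => MonoidAlgebra.coeff z (a : G)) hx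
    simpa [UV.RESAux.emb_coeff_mem] using this
  have hzero : ∀ (Y : Set G), SuppIn Y (0 : Matrix (Fin n) Unit (MonoidAlgebra k G)) := by
    intro Y i j g hg
    exact absurd (by simp) hg
  constructor
  · intro z hz
    have := (all _ 0 (hcoe Yp P.Yp1 P.Ypl z) (hzero _) (hmul d1 z hz) (Matrix.mul_zero _)).1
    funext i
    exact hemb _ (congrFun (congrFun this i) ())
  · intro z hz
    have := (all 0 _ (hzero _) (hcoe Ym P.Ym1 P.Yml z) (Matrix.mul_zero _) (hmul d2 z hz)).2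
    funext i
    exact hemb _ (congrFun (congrFun this i) ())

end Pool.Agent.Lib.MP8a3537.UO
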