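import Pool.Agent.Lib.MP_8a3537_gt.UO.Spec
import Pool.Agent.Lib.MP_8a3537_gt.UV.HTR
import Pool.Agent.Lib.MP_8a3537_gt.UV.WAL

/-!
# LWA: the weak algorithm for locally free groups (proof of `SpecLWA`)
-/

namespace Pool.Agent.Lib.MP8a3537.UO

open Matrix Pool.Agent.Lib.MP8a3537.UV

namespace LWAAux

/-- `GE` is preserved by group homomorphisms. -/
theorem ge_map {R F F' : Type} [Ring R] [Group F] [Group F'] (φ : F →* F') {r : ℕ}
    (g : Matrix (Fin r) (Fin r) (MonoidAlgebra R F)) (hg : GE g) :
    GE (g.map (MonoidAlgebra.mapDomainRingHom R φ)) := by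
  classical
  induction hg with
  | one =>
    rw [Matrix.map_one _ (map_zero _) (map_one _)]
    exact GE.one
  | elem i j hij s g _ ih =>
    rw [Matrix.map_mul, Matrix.map_add _ (map_add _), Matrix.map_one _ (map_zero _) (map_one _)]
    have : (Matrix.single i j s : Matrix (Fin r) (Fin r) (MonoidAlgebra R F)).map
        (MonoidAlgebra.mapDomainRingHom R φ) =
        Matrix.single i j (MonoidAlgebra.mapDomainRingHom R φ s) := by
      ext a b
      simp only [Matrix.map_apply, Matrix.single_apply]
      split_ifs <;> simp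
    rw [this]
    exact GE.elem i j hij _ _ ih
  | mono i y g _ ih =>
    rw [Matrix.map_mul, Matrix.diagonal_map (map_zero _)]
    have : (fun m => MonoidAlgebra.mapDomainRingHom R φ
        ((Function.update (1 : Fin r → MonoidAlgebra R F) i (MonoidAlgebra.single y 1)) m)) =
        Function.update (1 : Fin r → MonoidAlgebra R F') i (MonoidAlgebra.single (φ y) 1) := by
      funext m
      by_cases h : m = i
      · subst h
        simp
      · simp [Function.update_of_ne h]
    have h2 := GE.mono i (φ y) _ ih
    rw [← this] at h2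
    exact h2

/-- An element of the group ring with support in the range of `φ` is in the range of the map
induced by `φ`. -/
theorem exists_lift {R F F' : Type} [Ring R] [Group F] [Group F'] (φ : F →* F')
    (a : MonoidAlgebra R F') (ha : ∀ g, a.coeff g ≠ 0 → g ∈ φ.range) :
    ∃ b : MonoidAlgebra R F, MonoidAlgebra.mapDomainRingHom R φ b = a := by
  classical
  have h : a ∈ (MonoidAlgebra.mapDomainRingHom R φ).range := by
    have ha2 : a = ∑ g ∈ a.coeff.support, MonoidAlgebra.single g (a.coeff g) := by
      ext g
      rw [MonoidAlgebra.coeff_sum, Finsupp.finsetSum_apply]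
      simp only [MonoidAlgebra.coeff_single, Finsupp.single_apply]
      rw [Finset.sum_ite_eq' a.coeff.support g]
      split_ifs with h
      · rfl
      · simpa using h
    rw [ha2]
    refine sum_mem fun g hg => ?_
    obtain ⟨y, hy⟩ := ha g (Finsupp.mem_support_iff.1 hg)
    refine ⟨MonoidAlgebra.single y (a.coeff g), ?_⟩
    rw [MonoidAlgebra.mapDomainRingHom_apply, MonoidAlgebra.mapDomain_single, hy]
  exact h

end LWAAux

open LWAAux in
theorem specLWA : SpecLWA := by
  classical
  intro k H _ _ hH r m C x hx hxC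
  -- the finite set of all group elements which occur
  let S : Finset H := (Finset.univ.biUnion fun i => (x i).coeff.support) ∪
    (Finset.univ.biUnion fun i => Finset.univ.biUnion fun j => (C i j).coeff.support)
  let K : Subgroup H := Subgroup.closure (S : Set H)
  have hK : K.FG := ⟨S, rfl⟩
  have := hH K hK
  let ψ : FreeGroup (IsFreeGroup.Generators K) →* H :=
    K.subtype.comp (IsFreeGroup.toFreeGroup K).symm.toMonoidHom
  have hψi : Function.Injective ψ :=
    (Subgroup.subtype_injective K).comp (IsFreeGroup.toFreeGroup K).symm.injective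
  have hψr : ∀ g ∈ K, g ∈ ψ.range := by
    intro g hg
    refine ⟨IsFreeGroup.toFreeGroup K ⟨g, hg⟩, ?_⟩
    change ((IsFreeGroup.toFreeGroup K).symm (IsFreeGroup.toFreeGroup K ⟨g, hg⟩) : H) = g
    rw [MulEquiv.symm_apply_apply]
  have hxl : ∀ i, ∃ b, MonoidAlgebra.mapDomainRingHom k ψ b = x i := by
    intro i
    refine exists_lift ψ (x i) fun g hg => hψr g (Subgroup.subset_closure ?_)
    simp only [S, Finset.coe_union, Finset.coe_biUnion, Set.mem_union, Set.mem_iUnion]
    left
    exact ⟨i, by simp, Finsupp.mem_support_iff.2 hg⟩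
  have hCl : ∀ i j, ∃ b, MonoidAlgebra.mapDomainRingHom k ψ b = C i j := by
    intro i j
    refine exists_lift ψ (C i j) fun g hg => hψr g (Subgroup.subset_closure ?_)
    simp only [S, Finset.coe_union, Finset.coe_biUnion, Set.mem_union, Set.mem_iUnion]
    right
    exact ⟨i, by simp, j, by simp, Finsupp.mem_support_iff.2 hg⟩
  choose x0 hx0 using hxl
  choose C0 hC0 using hCl
  have hinj : Function.Injective (MonoidAlgebra.mapDomainRingHom k ψ) := by
    intro a b hab
    exact MonoidAlgebra.mapDomain_injective hψi hab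
  have hx0ne : x0 ≠ 0 := by
    intro h0
    apply hx
    funext i
    rw [← hx0 i, h0]
    simp
  have hxC0 : x0 ᵥ* (Matrix.of C0) = 0 := by
    funext j
    apply hinj
    have := congrFun hxC j
    simp only [Matrix.vecMul, dotProduct, Pi.zero_apply] at this
    simp only [Matrix.vecMul, dotProduct, Pi.zero_apply, Matrix.of_apply, map_sum, map_mul,
      map_zero, hx0, hC0]
    exact this
  obtain ⟨T⟩ := specHTR (IsFreeGroup.Generators K)
  obtain ⟨g, hg, i, hi⟩ := specWAL k (FreeGroup (IsFreeGroup.Generators K)) T r m (Matrix.of C0) x0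
    hx0ne hxC0
  refine ⟨g.map (MonoidAlgebra.mapDomainRingHom k ψ), ge_map ψ g hg, i, fun j => ?_⟩
  have hCm : C = (Matrix.of C0).map (MonoidAlgebra.mapDomainRingHom k ψ) := by
    ext1 a b
    rw [Matrix.map_apply, Matrix.of_apply, hC0]
  rw [hCm, ← Matrix.map_mul, Matrix.map_apply, hi j, map_zero]

end Pool.Agent.Lib.MP8a3537.UO
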