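import Pool.Agent.Lib.MP_8a3537_gt.UO.Spec

/-!
# UO, module MOV: a move
-/

namespace Pool.Agent.Lib.MP8a3537.UO

open Matrix Pool.Agent.Lib.MP8a3537.UV

namespace MOVAux

theorem bar_coeff {D k F : Type} [Ring D] [Ring k] [Group F] (φ : D →+* k)
    (y : MonoidAlgebra D F) (x : F) :
    (MonoidAlgebra.mapRingHom F φ y).coeff x = φ (y.coeff x) := by
  simp

theorem dv_of_bar {D k F : Type} [CommRing D] [Ring k] [Group F] {p : D} (π : D →+* k)
    (hker : ∀ a, π a = 0 → p ∣ a) (y : MonoidAlgebra D F)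
    (h : MonoidAlgebra.mapRingHom F π y = 0) : ∃ y' : MonoidAlgebra D F, y = p • y' := by
  classical
  have h1 : ∀ x : F, p ∣ y.coeff x := by
    intro x
    have h2 := congrArg (fun z => z.coeff x) h
    simp only [bar_coeff] at h2
    exact hker _ h2
  have h2 : ∀ a : D, ∃ b : D, (a = 0 → b = 0) ∧ (p ∣ a → a = p * b) := by
    intro a
    by_cases ha : a = 0
    · exact ⟨0, fun _ => rfl, fun _ => by rw [ha, mul_zero]⟩
    · by_cases hp : p ∣ a
      · obtain ⟨b, hb⟩ := hp
        exact ⟨b, fun h => absurd h ha, fun _ => hb⟩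
      · exact ⟨0, fun _ => rfl, fun h => absurd h hp⟩
  choose ψ hψ0 hψ using h2
  refine ⟨.ofCoeff (y.coeff.mapRange ψ (hψ0 0 rfl)), ?_⟩
  ext x
  rw [MonoidAlgebra.coeff_smul, Finsupp.smul_apply, smul_eq_mul]
  exact hψ _ (h1 x)

theorem bar_smul {D k F : Type} [CommRing D] [Ring k] [Group F] {p : D} (π : D →+* k)
    (hp : π p = 0) (y : MonoidAlgebra D F) : MonoidAlgebra.mapRingHom F π (p • y) = 0 := by
  ext x
  rw [bar_coeff, MonoidAlgebra.coeff_smul, Finsupp.smul_apply, smul_eq_mul, map_mul, hp, zero_mul]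
  rfl

theorem GE_mul {R F : Type} [Ring R] [Group F] {r : ℕ}
    {g h : Matrix (Fin r) (Fin r) (MonoidAlgebra R F)} (hg : GE g) (hh : GE h) : GE (g * h) := by
  induction hg with
  | one => rwa [one_mul]
  | elem i j hij s g _ ih => rw [mul_assoc]; exact GE.elem i j hij s _ ih
  | mono i y g _ ih => rw [mul_assoc]; exact GE.mono i y _ ih

/-- The conjugate transpose of an element of `GE`. -/
theorem GE_star {R F : Type} [Ring R] [StarRing R] [Group F] {r : ℕ}
    {g : Matrix (Fin r) (Fin r) (MonoidAlgebra R F)} (hg : GE g) : GE gᴴ := by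
  induction hg with
  | one => rw [conjTranspose_one]; exact GE.one
  | elem i j hij s g _ ih =>
    rw [conjTranspose_mul, conjTranspose_add, conjTranspose_one]
    refine GE_mul ih ?_
    have h1 : (Matrix.single i j s)ᴴ = Matrix.single j i (star s) := by
      rw [Matrix.conjTranspose_single]
    rw [h1]
    have h2 := GE.elem j i hij.symm (star s) (1 : Matrix (Fin r) (Fin r) (MonoidAlgebra R F)) GE.one
    rwa [mul_one] at h2
  | mono i y g _ ih =>
    rw [conjTranspose_mul]
    refine GE_mul ih ?_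
    rw [diagonal_conjTranspose]
    have h1 : star (Function.update (1 : Fin r → MonoidAlgebra R F) i (MonoidAlgebra.single y 1))
        = Function.update (1 : Fin r → MonoidAlgebra R F) i (MonoidAlgebra.single y⁻¹ 1) := by
      funext k
      rw [Pi.star_apply]
      by_cases hk : k = i
      · subst hk
        rw [Function.update_self, Function.update_self, star_single, star_one]
      · rw [Function.update_of_ne hk, Function.update_of_ne hk, Pi.one_apply, star_one]
    rw [h1]
    have h2 := GE.mono i y⁻¹ (1 : Matrix (Fin r) (Fin r) (MonoidAlgebra R F)) GE.one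
    rwa [mul_one] at h2

/-- (WA) for columns -/
theorem wa_col {k F : Type} [Field k] [Group F] (hW : WA k F) {m r : ℕ}
    (i : Matrix (Fin m) (Fin r) (MonoidAlgebra k F)) (x : Fin r → MonoidAlgebra k F)
    (hx : x ≠ 0) (hi : i *ᵥ x = 0) :
    ∃ (h : Matrix (Fin r) (Fin r) (MonoidAlgebra k F)) (j : Fin r),
      GE h ∧ ∀ a, (i * h) a j = 0 := by
  let _ : StarRing k := starRingOfComm
  have hx' : star x ≠ 0 := fun h => hx (by simpa using congrArg star h)
  have hC : star x ᵥ* iᴴ = 0 := by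
    rw [← Matrix.star_mulVec, hi, star_zero]
  obtain ⟨g, hg, j, hj⟩ := hW r m iᴴ (star x) hx' hC
  refine ⟨gᴴ, j, GE_star hg, ?_⟩
  intro a
  have h3 : i * gᴴ = (g * iᴴ)ᴴ := by
    rw [Matrix.conjTranspose_mul, Matrix.conjTranspose_conjTranspose]
  rw [h3, Matrix.conjTranspose_apply, hj a, star_zero]

/-- The diagonal matrix `(1, .., p, .., 1)`. -/
noncomputable def dl {D F : Type} [CommRing D] [Group F] {n : ℕ} (p : D) (j : Fin n) :
    Matrix (Fin n) (Fin n) (MonoidAlgebra D F) :=
  Matrix.diagonal (Function.update 1 j (algebraMap D (MonoidAlgebra D F) p))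

theorem mul_dl {D F : Type} [CommRing D] [Group F] {n : ℕ} (p : D) (j : Fin n)
    (M : Matrix (Fin n) (Fin n) (MonoidAlgebra D F)) (i : Fin n) (l : Fin n) :
    (M * (dl p j : Matrix (Fin n) (Fin n) (MonoidAlgebra D F))) i l
      = if l = j then p • M i l else M i l := by
  unfold dl
  rw [Matrix.mul_diagonal]
  split_ifs with h
  · rw [h, Function.update_self, ← Algebra.commutes, ← Algebra.smul_def]
  · rw [Function.update_of_ne h, Pi.one_apply, mul_one]

theorem fac_dl {D F : Type} [CommRing D] [Group F] {n : ℕ} (p : D) (j : Fin n)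
    (M : Matrix (Fin n) (Fin n) (MonoidAlgebra D F)) (y : Fin n → MonoidAlgebra D F)
    (h : ∀ i, M i j = p • y i) : M = M.updateCol j y * dl p j := by
  ext1 i l
  rw [mul_dl]
  split_ifs with hl
  · rw [hl, updateCol_self, h i]
  · rw [updateCol_ne hl]

theorem smul_cancel {D F : Type} [CommRing D] [IsDomain D] [Group F] {p : D} (hp : p ≠ 0)
    (y : MonoidAlgebra D F) (h : p • y = 0) : y = 0 := by
  ext x
  have h1 := congrArg (fun z => z.coeff x) h
  simp only [MonoidAlgebra.coeff_smul, Finsupp.smul_apply, smul_eq_mul] at h1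
  have h2 : p * y.coeff x = 0 := h1
  rcases mul_eq_zero.1 h2 with h3 | h3
  · exact absurd h3 hp
  · rw [h3]; rfl

theorem cancel_dl {D F : Type} [CommRing D] [IsDomain D] [Group F] {n : ℕ} {p : D} (hp : p ≠ 0)
    (j : Fin n) (M : Matrix (Fin n) (Fin n) (MonoidAlgebra D F)) (h : M * dl p j = 0) : M = 0 := by
  ext1 i l
  have h1 := congrFun (congrFun h i) l
  rw [mul_dl, Matrix.zero_apply] at h1
  rw [Matrix.zero_apply]
  split_ifs at h1 with h2
  · exact smul_cancel hp _ h1
  · exact h1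

theorem ext_mul {D G : Type} [Ring D] [Group G] {H : Subgroup G} {n : ℕ}
    (M N : Matrix (Fin n) (Fin n) (MonoidAlgebra D H)) : ext (M * N) = ext M * ext N := by
  unfold ext
  rw [Matrix.map_mul]

theorem ext_one {D G : Type} [Ring D] [Group G] {H : Subgroup G} {n : ℕ} :
    ext (1 : Matrix (Fin n) (Fin n) (MonoidAlgebra D H)) = 1 := by
  unfold ext
  rw [← RingHom.mapMatrix_apply, map_one]

theorem ext_dl {D G : Type} [CommRing D] [Group G] {H : Subgroup G} {n : ℕ} (p : D) (j : Fin n) :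
    ext (dl p j : Matrix (Fin n) (Fin n) (MonoidAlgebra D H)) = dl p j := by
  unfold ext dl
  rw [Matrix.diagonal_map (map_zero _)]
  congr 1
  funext k
  by_cases hk : k = j
  · subst hk
    simp [MonoidAlgebra.coe_algebraMap]
  · rw [Function.update_of_ne hk, Function.update_of_ne hk, Pi.one_apply, Pi.one_apply, map_one]

theorem supp_mul {D G : Type} [CommRing D] [Group G] {H : Subgroup G} {n : ℕ} {X : Set G}
    (hX : ∀ h ∈ H, ∀ x ∈ X, x * h ∈ X) {M : Matrix (Fin n) (Fin n) (MonoidAlgebra D G)}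
    (hM : SuppIn X M) (γ : Matrix (Fin n) (Fin n) (MonoidAlgebra D H)) :
    SuppIn X (M * ext γ) := by
  classical
  intro i j x hx
  rw [Matrix.mul_apply, MonoidAlgebra.coeff_sum, Finsupp.finsetSum_apply] at hx
  obtain ⟨l, -, hl⟩ := Finset.exists_ne_zero_of_sum_ne_zero hx
  have h1 : ∀ s : MonoidAlgebra D H,
      ((M i l) * MonoidAlgebra.mapDomainRingHom D H.subtype s).coeff x ≠ 0 → x ∈ X := by
    intro s
    induction s using MonoidAlgebra.induction_linear with
    | zero => simp
    | add f g hf hg =>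
      intro h
      by_contra hxX
      apply h
      rw [map_add, mul_add, MonoidAlgebra.coeff_add, Finsupp.add_apply,
        not_not.1 fun h => hxX (hf h), not_not.1 fun h => hxX (hg h), add_zero]
    | single a r =>
      intro h
      have h2 : MonoidAlgebra.mapDomainRingHom D H.subtype (MonoidAlgebra.single a r)
          = MonoidAlgebra.single (a : G) r := by
        simp only [MonoidAlgebra.mapDomainRingHom_apply, MonoidAlgebra.mapDomain_single]
        rfl
      rw [h2, MonoidAlgebra.coeff_mul_single_apply] at h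
      have h3 : x * (a : G)⁻¹ ∈ X := hM i l _ (left_ne_zero_of_mul h)
      have h4 := hX a a.2 _ h3
      rwa [inv_mul_cancel_right] at h4
  exact h1 _ hl

theorem aug_dl {D F : Type} [CommRing D] [Group F] {n : ℕ} (p : D) (j : Fin n) :
    ((dl p j : Matrix (Fin n) (Fin n) (MonoidAlgebra D F)).map (aug D F)).det = p := by
  unfold dl
  rw [Matrix.diagonal_map (map_zero _), Matrix.det_diagonal]
  have h1 : (⇑(aug D F) ∘ Function.update (1 : Fin n → MonoidAlgebra D F) j
      (algebraMap D (MonoidAlgebra D F) p)) = Function.update (1 : Fin n → D) j p := by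
    funext k
    by_cases hk : k = j
    · subst hk
      simp [aug]
    · simp [Function.update_of_ne hk]
  show ∏ i, (⇑(aug D F) ∘ Function.update (1 : Fin n → MonoidAlgebra D F) j
      (algebraMap D (MonoidAlgebra D F) p)) i = p
  rw [h1, Finset.prod_update_of_mem (Finset.mem_univ j)]
  simp

theorem res_bar {D k G : Type} [Ring D] [Ring k] [Group G] (φ : D →+* k) (H : Subgroup G) (t : G)
    (y : MonoidAlgebra D G) :
    MonoidAlgebra.mapRingHom H φ (res H t y) = res H t (MonoidAlgebra.mapRingHom G φ y) := by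
  ext h
  rw [bar_coeff, res_coeff, res_coeff, bar_coeff]

theorem res_mul_right {R G : Type} [Ring R] [Group G] (H : Subgroup G) (t : G) (h : H)
    (y : MonoidAlgebra R G) :
    res H (t * h) y = MonoidAlgebra.single h⁻¹ 1 * res H t y := by
  ext k
  rw [MonoidAlgebra.coeff_single_mul_apply, res_coeff, res_coeff, one_mul]
  congr 1
  simp [mul_assoc]

theorem res_add {R G : Type} [Ring R] [Group G] (H : Subgroup G) (t : G)
    (y z : MonoidAlgebra R G) : res H t (y + z) = res H t y + res H t z := by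
  ext h
  rw [MonoidAlgebra.coeff_add, Finsupp.add_apply, res_coeff, res_coeff, res_coeff,
    MonoidAlgebra.coeff_add, Finsupp.add_apply]

theorem res_zero {R G : Type} [Ring R] [Group G] (H : Subgroup G) (t : G) :
    res H t (0 : MonoidAlgebra R G) = 0 := by
  ext h
  rw [res_coeff]
  rfl

theorem res_mul {R G : Type} [Ring R] [Group G] (H : Subgroup G) (t : G)
    (y : MonoidAlgebra R G) (s : MonoidAlgebra R H) :
    res H t (y * MonoidAlgebra.mapDomainRingHom R H.subtype s) = res H t y * s := by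
  induction s using MonoidAlgebra.induction_linear with
  | zero => rw [map_zero, mul_zero, mul_zero, res_zero]
  | add a b ha hb => rw [map_add, mul_add, mul_add, res_add, ha, hb]
  | single a r =>
    have h2 : MonoidAlgebra.mapDomainRingHom R H.subtype (MonoidAlgebra.single a r)
        = MonoidAlgebra.single (a : G) r := by
      simp only [MonoidAlgebra.mapDomainRingHom_apply, MonoidAlgebra.mapDomain_single]
      rfl
    ext h
    rw [h2, res_coeff, MonoidAlgebra.coeff_mul_single_apply, MonoidAlgebra.coeff_mul_single_apply,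
      res_coeff]
    simp [mul_assoc]

theorem res_sum {R G : Type} [Ring R] [Group G] (H : Subgroup G) (t : G) {n : ℕ}
    (f : Fin n → MonoidAlgebra R G) : res H t (∑ l, f l) = ∑ l, res H t (f l) := by
  have := map_sum (AddMonoidHom.mk' (res H t) (res_add H t)) f Finset.univ
  exact this

theorem bar_res_mul {D k G : Type} [CommRing D] [Ring k] [Group G] (π : D →+* k) (H : Subgroup G)
    (t : G) {n : ℕ} (M : Matrix (Fin n) (Fin n) (MonoidAlgebra D G))
    (v : Fin n → MonoidAlgebra D H) (i : Fin n) :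
    MonoidAlgebra.mapRingHom H π (res H t (∑ l, M i l *
        MonoidAlgebra.mapDomainRingHom D H.subtype (v l))) =
      ∑ l, MonoidAlgebra.mapRingHom H π (res H t (M i l)) * MonoidAlgebra.mapRingHom H π (v l) := by
  rw [res_sum, map_sum]
  refine Finset.sum_congr rfl fun l _ => ?_
  rw [res_mul, map_mul]

/-- all restrictions reduce to `0` -/
theorem all_t {D k G : Type} [CommRing D] [Ring k] [Group G] (π : D →+* k) (H : Subgroup G)
    {n : ℕ} (M : Matrix (Fin n) (Fin n) (MonoidAlgebra D G)) (J : Finset G)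
    (hJ : ∀ i j g, (M i j).coeff g ≠ 0 → g ∈ J) (v : Fin n → MonoidAlgebra k H) (i : Fin n)
    (h : ∀ t ∈ J, ∑ l, MonoidAlgebra.mapRingHom H π (res H t (M i l)) * v l = 0) (t : G) :
    ∑ l, MonoidAlgebra.mapRingHom H π (res H t (M i l)) * v l = 0 := by
  by_cases ht : ∃ j ∈ J, j⁻¹ * t ∈ H
  · obtain ⟨j, hj, hjt⟩ := ht
    have h1 : t = j * ((⟨j⁻¹ * t, hjt⟩ : H) : G) := by simp
    have h2 : ∀ l, MonoidAlgebra.mapRingHom H π (res H t (M i l)) * v l =
        MonoidAlgebra.mapRingHom H π (MonoidAlgebra.single (⟨j⁻¹ * t, hjt⟩ : H)⁻¹ 1) *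
          (MonoidAlgebra.mapRingHom H π (res H j (M i l)) * v l) := by
      intro l
      have h3 := res_mul_right H j (⟨j⁻¹ * t, hjt⟩ : H) (M i l)
      rw [← h1] at h3
      rw [h3, map_mul, mul_assoc]
    rw [Finset.sum_congr rfl fun l _ => h2 l, ← Finset.mul_sum, h j hj, mul_zero]
  · refine Finset.sum_eq_zero fun l _ => ?_
    have h1 : res H t (M i l) = 0 := by
      ext x
      rw [res_coeff]
      by_contra hne
      refine ht ⟨t * x, hJ i l _ hne, ?_⟩
      have h2 : (t * (x : G))⁻¹ * t = ((x⁻¹ : H) : G) := by simp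
      rw [h2]
      exact (x⁻¹).2
    rw [h1, map_zero, zero_mul]

theorem main (hL : SpecLFT) {D k G : Type} [CommRing D] [Field k] [Group G] (π : D →+* k)
    (hπ : Function.Surjective π) (p : D) (hp : π p = 0) (hker : ∀ a, π a = 0 → p ∣ a)
    (H : Subgroup G) (hWA : WA k H) (n : ℕ) (d : Matrix (Fin n) (Fin n) (MonoidAlgebra D H))
    (g m : Matrix (Fin n) (Fin n) (MonoidAlgebra D G)) (z : Fin n → MonoidAlgebra D H)
    (hz0 : ¬ Dv p z) (hzd : Dv p (d *ᵥ z)) (hzg : Dv p (g *ᵥ extv z)) (hzm : Dv p (m *ᵥ extv z)) :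
    ∃ (γ γ' : Matrix (Fin n) (Fin n) (MonoidAlgebra D H)) (j : Fin n),
      γ * γ' = 1 ∧ γ' * γ = 1 ∧ (γ'.map (aug D H)).det = 1 ∧
      (∀ i, ∃ y, (d * γ) i j = p • y) ∧ (∀ i, ∃ y, (g * ext γ) i j = p • y) ∧
      (∀ i, ∃ y, (m * ext γ) i j = p • y) := by
  classical
  -- the supports
  obtain ⟨J, hJg, hJm⟩ : ∃ J : Finset G, (∀ i j x, (g i j).coeff x ≠ 0 → x ∈ J) ∧
      (∀ i j x, (m i j).coeff x ≠ 0 → x ∈ J) := by
    refine ⟨Finset.univ.biUnion fun x : Fin n × Fin n =>
      (g x.1 x.2).coeff.support ∪ (m x.1 x.2).coeff.support, ?_, ?_⟩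
    · intro i j x hx
      exact Finset.mem_biUnion.2 ⟨(i, j), Finset.mem_univ _,
        Finset.mem_union_left _ (Finsupp.mem_support_iff.2 hx)⟩
    · intro i j x hx
      exact Finset.mem_biUnion.2 ⟨(i, j), Finset.mem_univ _,
        Finset.mem_union_right _ (Finsupp.mem_support_iff.2 hx)⟩
  set bH : MonoidAlgebra D H →+* MonoidAlgebra k H := MonoidAlgebra.mapRingHom H π with hbH
  set bG : MonoidAlgebra D G →+* MonoidAlgebra k G := MonoidAlgebra.mapRingHom G π with hbG
  obtain ⟨e⟩ : Nonempty ((Fin n ⊕ ((J × Fin n) ⊕ (J × Fin n))) ≃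
      Fin (Fintype.card (Fin n ⊕ ((J × Fin n) ⊕ (J × Fin n))))) := ⟨Fintype.equivFin _⟩
  obtain ⟨Lrow, hLrow⟩ : ∃ Lrow : Fin n ⊕ ((J × Fin n) ⊕ (J × Fin n)) → Fin n →
      MonoidAlgebra k H, Lrow = Sum.elim (fun i l => bH (d i l))
        (Sum.elim (fun x l => bH (res H x.1 (g x.2 l))) (fun x l => bH (res H x.1 (m x.2 l)))) :=
    ⟨_, rfl⟩
  set L : Matrix (Fin (Fintype.card (Fin n ⊕ ((J × Fin n) ⊕ (J × Fin n))))) (Fin n)
    (MonoidAlgebra k H) := Matrix.of fun x l => Lrow (e.symm x) l with hLdef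
  have hzz : (fun i => bH (z i)) ≠ 0 := by
    intro h
    apply hz0
    choose y hy using fun i => dv_of_bar π hker (z i) (congrFun h i)
    exact ⟨y, funext hy⟩
  have hext : ∀ (M : Matrix (Fin n) (Fin n) (MonoidAlgebra D G)), Dv p (M *ᵥ extv z) →
      ∀ (t : G) (i : Fin n), ∑ l, bH (res H t (M i l)) * bH (z l) = 0 := by
    intro M ⟨y, hy⟩ t i
    rw [← bar_res_mul π H t M z i]
    have h1 := congrFun hy i
    have h2 : (M *ᵥ extv z) i
        = ∑ l, M i l * MonoidAlgebra.mapDomainRingHom D H.subtype (z l) := rfl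
    rw [← h2, h1, Pi.smul_apply, res_bar, bar_smul π hp, res_zero]
  have hLz : L *ᵥ (fun i => bH (z i)) = 0 := by
    funext x
    obtain ⟨s, rfl⟩ := e.surjective x
    show ∑ l, L (e s) l * bH (z l) = 0
    simp only [hLdef, Matrix.of_apply, Equiv.symm_apply_apply, hLrow]
    rcases s with i | ⟨t, i⟩ | ⟨t, i⟩
    · obtain ⟨y, hy⟩ := hzd
      have h1 := congrFun hy i
      simp only [Sum.elim_inl]
      have h2 : ∑ l, bH (d i l) * bH (z l) = bH ((d *ᵥ z) i) := by
        show _ = bH (∑ l, d i l * z l)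
        rw [map_sum]
        exact Finset.sum_congr rfl fun l _ => (map_mul _ _ _).symm
      rw [h2, h1, Pi.smul_apply, bar_smul π hp]
    · exact hext g hzg t i
    · exact hext m hzm t i
  obtain ⟨h, j, hGE, hj⟩ := wa_col hWA L _ hzz hLz
  obtain ⟨γ, hγ, hγh⟩ := hL.2.1 D k H π hπ n h hGE
  obtain ⟨γ', hγ', h1, h2⟩ := hL.1 D H n γ hγ
  have hrow : ∀ s, ∑ l, Lrow s l * bH (γ l j) = 0 := by
    intro s
    have h3 := hj (e s)
    rw [Matrix.mul_apply] at h3
    simp only [hLdef, Matrix.of_apply, Equiv.symm_apply_apply] at h3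
    rw [← h3]
    refine Finset.sum_congr rfl fun l _ => ?_
    rw [← hγh, Matrix.map_apply]
  have hGside : ∀ (M : Matrix (Fin n) (Fin n) (MonoidAlgebra D G)),
      (∀ i x y, (M i x).coeff y ≠ 0 → y ∈ J) →
      (∀ t ∈ J, ∀ i, ∑ l, bH (res H t (M i l)) * bH (γ l j) = 0) →
      ∀ i, ∃ y, (M * ext γ) i j = p • y := by
    intro M hM hMt i
    apply dv_of_bar π hker
    have h3 : (M * ext γ) i j
        = ∑ l, M i l * MonoidAlgebra.mapDomainRingHom D H.subtype (γ l j) := by
      rw [Matrix.mul_apply]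
      rfl
    have h4 : ∀ t, res H t (bG ((M * ext γ) i j)) = 0 := by
      intro t
      rw [← res_bar, h3]
      rw [bar_res_mul π H t M (fun l => γ l j) i]
      exact all_t π H M J hM (fun l => bH (γ l j)) i (fun t ht => hMt t ht i) t
    ext t
    have h5 := congrArg (fun w => w.coeff 1) (h4 t)
    simp only [res_coeff, Subgroup.coe_one, mul_one] at h5
    exact h5
  refine ⟨γ, γ', j, h1, h2, hL.2.2 D H n γ' hγ', ?_, ?_, ?_⟩
  · intro i
    apply dv_of_bar π hker
    have h3 := hrow (Sum.inl i)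
    rw [hLrow] at h3
    rw [Matrix.mul_apply, map_sum, ← h3]
    exact Finset.sum_congr rfl fun l _ => map_mul _ _ _
  · refine hGside g hJg fun t ht i => ?_
    have h3 := hrow (Sum.inr (Sum.inl (⟨t, ht⟩, i)))
    rw [hLrow] at h3
    exact h3
  · refine hGside m hJm fun t ht i => ?_
    have h3 := hrow (Sum.inr (Sum.inr (⟨t, ht⟩, i)))
    rw [hLrow] at h3
    exact h3

theorem supp_upd {D G : Type} [CommRing D] [IsDomain D] [Group G] {n : ℕ} {X : Set G} {p : D}
    (hp0 : p ≠ 0) {M : Matrix (Fin n) (Fin n) (MonoidAlgebra D G)} (hM : SuppIn X M) (j : Fin n)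
    (y : Fin n → MonoidAlgebra D G) (h : ∀ i, M i j = p • y i) : SuppIn X (M.updateCol j y) := by
  intro i l x hx
  by_cases hl : l = j
  · subst hl
    rw [updateCol_self] at hx
    refine hM i l x ?_
    rw [h i, MonoidAlgebra.coeff_smul, Finsupp.smul_apply, smul_eq_mul]
    exact mul_ne_zero hp0 hx
  · rw [updateCol_ne hl] at hx
    exact hM i l x hx

end MOVAux

open MOVAux in
/-- **MOV**: a move. -/
theorem specMOV (hL : SpecLFT) : SpecMOV := by
  classical
  intro D G _ _ _ _ H n d g m p hp hWA ⟨z, hz0, hzd, hzg, hzm⟩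
  have hp0 : p ≠ 0 := hp.ne_zero
  haveI hmax : (Ideal.span {p}).IsMaximal :=
    PrincipalIdealRing.isMaximal_of_irreducible hp.irreducible
  letI : Field (D ⧸ Ideal.span {p}) := Ideal.Quotient.field _
  obtain ⟨γ, γ', j, h1, h2, hdet, hd, hg, hm⟩ := main hL (k := D ⧸ Ideal.span {p})
    (Ideal.Quotient.mk (Ideal.span {p})) Ideal.Quotient.mk_surjective p
    (Ideal.Quotient.eq_zero_iff_mem.2 (Ideal.mem_span_singleton_self p))
    (fun a ha => Ideal.mem_span_singleton.1 (Ideal.Quotient.eq_zero_iff_mem.1 ha)) H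
    (hWA _) n d g m z hz0 hzd hzg hzm
  choose yd hyd using hd
  choose yg hyg using hg
  choose ym hym using hm
  have e1 : ext γ * ext γ' = (1 : Matrix (Fin n) (Fin n) (MonoidAlgebra D G)) := by
    rw [← ext_mul, h1, ext_one]
  have e2 : ext γ' * ext γ = (1 : Matrix (Fin n) (Fin n) (MonoidAlgebra D G)) := by
    rw [← ext_mul, h2, ext_one]
  refine ⟨dl p j * γ', (d * γ).updateCol j yd, (g * ext γ).updateCol j yg,
    (m * ext γ).updateCol j ym, ?_, ?_, ?_, ?_, ?_, ?_, ?_, ?_⟩
  · rw [← mul_assoc, ← fac_dl p j (d * γ) yd hyd, mul_assoc, h1, mul_one]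
  · rw [ext_mul, ext_dl, ← mul_assoc, ← fac_dl p j (g * ext γ) yg hyg, mul_assoc, e1, mul_one]
  · rw [ext_mul, ext_dl, ← mul_assoc, ← fac_dl p j (m * ext γ) ym hym, mul_assoc, e1, mul_one]
  · intro X hX hgX
    exact supp_upd hp0 (supp_mul hX hgX γ) j yg hyg
  · intro X hX hmX
    exact supp_upd hp0 (supp_mul hX hmX γ) j ym hym
  · intro X hX
    apply cancel_dl hp0 j
    have h3 : X * dl p j = X * (dl p j * γ') * γ := by
      rw [mul_assoc, mul_assoc, h2, mul_one]
    rw [h3, hX, zero_mul]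
  · intro X hX
    apply cancel_dl hp0 j
    have h3 : X * dl p j = X * ext (dl p j * γ') * ext γ := by
      rw [ext_mul, ext_dl, mul_assoc, mul_assoc, e2, mul_one]
    rw [h3, hX, zero_mul]
  · rw [Matrix.map_mul, Matrix.det_mul, aug_dl, hdet, mul_one]

end Pool.Agent.Lib.MP8a3537.UO
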