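import Pool.Agent.Lib.MP_8a3537_gt.UO.Spec

/-!
# UO, module RED: reduction modulo a prime
-/

namespace Pool.Agent.Lib.MP8a3537.UO

open Matrix Pool.Agent.Lib.MP8a3537.UV

namespace REDAux

theorem bar_coeff {D k F : Type} [Ring D] [Ring k] [Group F] (φ : D →+* k)
    (y : MonoidAlgebra D F) (x : F) :
    (MonoidAlgebra.mapRingHom F φ y).coeff x = φ (y.coeff x) := by
  simp

theorem dv_of_bar {D F : Type} [CommRing D] [Group F] {p : D} (y : MonoidAlgebra D F)
    (h : MonoidAlgebra.mapRingHom F (Ideal.Quotient.mk (Ideal.span {p})) y = 0) :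
    ∃ y' : MonoidAlgebra D F, y = p • y' := by
  classical
  have h1 : ∀ x : F, p ∣ y.coeff x := by
    intro x
    have h2 := congrArg (fun z => z.coeff x) h
    simp only [bar_coeff] at h2
    have h3 : (Ideal.Quotient.mk (Ideal.span {p})) (y.coeff x) = 0 := h2
    rwa [Ideal.Quotient.eq_zero_iff_mem, Ideal.mem_span_singleton] at h3
  have h2 : ∀ a : D, ∃ b : D, (a = 0 → b = 0) ∧ (p ∣ a → a = p * b) := by
    intro a
    by_cases ha : a = 0
    · exact ⟨0, fun _ => rfl, fun _ => by rw [ha, mul_zero]⟩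
    · by_cases hp : p ∣ a
      · obtain ⟨b, hb⟩ := hp
        exact ⟨b, fun h => absurd h ha, fun _ => hb⟩
      · exact ⟨0, fun _ => rfl, fun h => absurd h hp⟩
  choose ψ hψ0 hψ using h2
  refine ⟨.ofCoeff (y.coeff.mapRange ψ (hψ0 0 rfl)), ?_⟩
  ext x
  rw [MonoidAlgebra.coeff_smul, Finsupp.smul_apply, smul_eq_mul]
  exact hψ _ (h1 x)

theorem bar_smul {D F : Type} [CommRing D] [Group F] {p : D} (y : MonoidAlgebra D F) :
    MonoidAlgebra.mapRingHom F (Ideal.Quotient.mk (Ideal.span {p})) (p • y) = 0 := by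
  ext x
  rw [bar_coeff, MonoidAlgebra.coeff_smul, Finsupp.smul_apply, smul_eq_mul, map_mul]
  have : (Ideal.Quotient.mk (Ideal.span {p})) p = 0 :=
    Ideal.Quotient.eq_zero_iff_mem.2 (Ideal.mem_span_singleton_self p)
  rw [this, zero_mul]
  rfl

theorem dv_iff {D F : Type} [CommRing D] [Group F] {p : D} {n : ℕ}
    (z : Fin n → MonoidAlgebra D F) :
    Dv p z ↔ (fun i => MonoidAlgebra.mapRingHom F (Ideal.Quotient.mk (Ideal.span {p})) (z i))
      = 0 := by
  constructor
  · rintro ⟨y, rfl⟩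
    funext i
    exact bar_smul (y i)
  · intro h
    have h1 : ∀ i, ∃ y' : MonoidAlgebra D F, z i = p • y' := fun i => dv_of_bar (z i) (congrFun h i)
    choose y hy using h1
    exact ⟨y, funext hy⟩

theorem map_surj {R k F : Type} [Ring R] [Ring k] [Group F] (f : R →+* k)
    (hf : Function.Surjective f) (s : MonoidAlgebra k F) :
    ∃ s', MonoidAlgebra.mapRingHom F f s' = s := by
  induction s using MonoidAlgebra.induction_linear with
  | zero => exact ⟨0, map_zero _⟩
  | add a b ha hb =>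
    obtain ⟨a', rfl⟩ := ha
    obtain ⟨b', rfl⟩ := hb
    exact ⟨a' + b', map_add _ _ _⟩
  | single a c =>
    obtain ⟨c', rfl⟩ := hf c
    exact ⟨MonoidAlgebra.single a c', by simp⟩

theorem emb_bar {D k G : Type} [Ring D] [Ring k] [Group G] (φ : D →+* k) (H : Subgroup G)
    (y : MonoidAlgebra D H) :
    MonoidAlgebra.mapDomainRingHom k H.subtype (MonoidAlgebra.mapRingHom H φ y) =
      MonoidAlgebra.mapRingHom G φ (MonoidAlgebra.mapDomainRingHom D H.subtype y) := by
  induction y using MonoidAlgebra.induction_linear with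
  | zero => simp
  | add a b ha hb => simp only [map_add, ha, hb]
  | single a c => simp

theorem ext_bar {D k G m n : Type} [Ring D] [Ring k] [Group G] (φ : D →+* k) (H : Subgroup G)
    (M : Matrix m n (MonoidAlgebra D H)) :
    ext (M.map (MonoidAlgebra.mapRingHom H φ)) = (ext M).map (MonoidAlgebra.mapRingHom G φ) := by
  ext1 i j
  exact emb_bar φ H (M i j)

theorem star_emb {R G : Type} [Ring R] [StarRing R] [Group G] (H : Subgroup G)
    (s : MonoidAlgebra R H) :
    star (MonoidAlgebra.mapDomainRingHom R H.subtype s)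
      = MonoidAlgebra.mapDomainRingHom R H.subtype (star s) := by
  induction s using MonoidAlgebra.induction_linear with
  | zero => simp
  | add f g hf hg => simp only [map_add, star_add, hf, hg]
  | single a r =>
    rw [star_single]
    simp only [MonoidAlgebra.mapDomainRingHom_apply, MonoidAlgebra.mapDomain_single, star_single]
    simp

theorem ext_star {D G m n : Type} [Ring D] [StarRing D] [Group G] (H : Subgroup G)
    (M : Matrix m n (MonoidAlgebra D H)) : ext Mᴴ = (ext M)ᴴ := by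
  ext1 i j
  exact (star_emb H (M j i)).symm

theorem supp_bar {D k G : Type} [Ring D] [Ring k] [Group G] (φ : D →+* k) {n : ℕ} {X : Set G}
    {M : Matrix (Fin n) (Fin n) (MonoidAlgebra D G)} (h : SuppIn X M) :
    SuppIn X (M.map (MonoidAlgebra.mapRingHom G φ)) := by
  intro i j x hx
  refine h i j x fun h0 => hx ?_
  rw [Matrix.map_apply, bar_coeff, h0, map_zero]

theorem map_pow' {A B : Type} [Ring A] [Ring B] (φ : A →+* B) {n : ℕ}
    (M : Matrix (Fin n ⊕ Fin n) (Fin n ⊕ Fin n) A) (l : ℕ) : (M ^ l).map φ = (M.map φ) ^ l := by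
  rw [← RingHom.mapMatrix_apply, map_pow, RingHom.mapMatrix_apply]

theorem mulVec_bar {A B : Type} [Ring A] [Ring B] (φ : A →+* B) {n : ℕ}
    (M : Matrix (Fin n) (Fin n) A) (v : Fin n → A) :
    M.map φ *ᵥ (fun i => φ (v i)) = fun i => φ ((M *ᵥ v) i) := by
  funext i
  exact (RingHom.map_mulVec φ M v i).symm

end REDAux

open REDAux in
theorem specRED (hKER : SpecKER) : SpecRED := by
  intro D G _ _ _ _ H X1 X2 X3 Yp Ym hP ε n q d e f g m m' hO p hp hA hB z hz
  set k := D ⧸ Ideal.span {p} with hk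
  set π : D →+* k := Ideal.Quotient.mk (Ideal.span {p}) with hπ
  have hsurj : Function.Surjective π := Ideal.Quotient.mk_surjective
  set bH : MonoidAlgebra D H →+* MonoidAlgebra k H := MonoidAlgebra.mapRingHom H π with hbH
  set bG : MonoidAlgebra D G →+* MonoidAlgebra k G := MonoidAlgebra.mapRingHom G π with hbG
  have hext : ∀ M : Matrix (Fin n) (Fin n) (MonoidAlgebra D H),
      ext (M.map bH) = (ext M).map bG := fun M => ext_bar π H M
  have hmul : ∀ M N : Matrix (Fin n) (Fin n) (MonoidAlgebra D G),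
      M.map bG * N.map bG = (M * N).map bG := fun M N => (Matrix.map_mul).symm
  have hsv : ∀ z : Fin n → MonoidAlgebra k H, ∃ z' : Fin n → MonoidAlgebra D H,
      z = fun i => bH (z' i) := by
    intro z
    choose z' hz' using fun i => map_surj π hsurj (z i)
    exact ⟨z', funext fun i => (hz' i).symm⟩
  have hev : ∀ z : Fin n → MonoidAlgebra D H,
      extv (fun i => bH (z i)) = fun i => bG (extv z i) := by
    intro z
    funext i
    exact emb_bar π H (z i)
  have hdvH : ∀ z : Fin n → MonoidAlgebra D H, Dv p z ↔ (fun i => bH (z i)) = 0 := dv_iff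
  have hdvG : ∀ z : Fin n → MonoidAlgebra D G, Dv p z ↔ (fun i => bG (z i)) = 0 := dv_iff
  have key := hKER k G H X1 X2 X3 Yp Ym hP n (d.map bH) (dᴴ.map bH) (f.map bG) (g.map bG)
    (m.map bG) (m'ᴴ.map bG) (m'.map bG) ((-((ε : ℤ) • fᴴ)).map bG) ((-((ε : ℤ) • gᴴ)).map bG)
    (mᴴ.map bG) (supp_bar π hO.sf) (supp_bar π hO.sg) (supp_bar π hO.sm) ?_ ?_ ?_ ?_ ?_ ?_ ?_ ?_
  · rw [hdvH]
    refine key.1 _ ?_
    rw [mulVec_bar]
    exact (hdvH _).1 hz
  · refine supp_bar π ?_
    intro i j x hx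
    show x⁻¹ ∈ X3
    refine hO.sm' j i x⁻¹ fun h0 => hx ?_
    rw [conjTranspose_apply, star_coeff, h0, star_zero]
  · rw [hext, hmul, hmul, hO.dm]
  · rw [hext, hext, hmul, hmul]
    congr 1
    rw [hO.df, ext_star, conjTranspose_mul, Matrix.neg_mul, Matrix.smul_mul]
  · rw [hext, hext, hmul, hmul]
    congr 1
    rw [ext_star, hO.dg, conjTranspose_mul, conjTranspose_conjTranspose, Matrix.neg_mul,
      Matrix.smul_mul]
  · rw [hext, hmul, hmul]
    congr 1
    rw [ext_star, ← conjTranspose_mul, ← conjTranspose_mul, hO.dm]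
  · obtain ⟨l, h, hh⟩ := hO.nil
    refine ⟨l, h.map bG, ?_⟩
    have h1 := congrArg (fun M => M.map bG) hh
    rw [map_pow', Matrix.map_mul, fromBlocks_map, fromBlocks_map] at h1
    rw [h1, hext, hext, ext_star, Matrix.map_zero _ (map_zero bG)]
  · intro z h1 h2 h3
    obtain ⟨z, rfl⟩ := hsv z
    rw [← hdvH]
    rw [mulVec_bar, ← hdvH] at h1
    rw [hev, mulVec_bar, ← hdvG] at h2 h3
    exact hA z h1 h2 h3
  · intro z h1 h2 h3
    obtain ⟨z, rfl⟩ := hsv z
    rw [← hdvH]
    rw [mulVec_bar, ← hdvH] at h1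
    rw [hev, mulVec_bar, ← hdvG] at h2 h3
    exact hB z h1 h2 h3

end Pool.Agent.Lib.MP8a3537.UO
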