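import Pool.Agent.Lib.MP_8a3537_gt.UO.Spec

/-!
# MP_8a3537_gt, UO, module SWO: exchange of the two coordinates
-/

namespace Pool.Agent.Lib.MP8a3537.UO

open Matrix Pool.Agent.Lib.MP8a3537.UV

namespace SWOAux

variable {A : Type} [Ring A] [StarRing A]

/-- the exchange matrix -/
def P (A : Type) [Ring A] (n : ℕ) : Matrix (Fin n ⊕ Fin n) (Fin n ⊕ Fin n) A :=
  fromBlocks 0 1 1 0

theorem PP (n : ℕ) : P A n * P A n = 1 := by
  unfold P
  rw [fromBlocks_multiply]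
  simp

theorem Ps (n : ℕ) : (P A n)ᴴ = P A n := by
  unfold P
  rw [fromBlocks_conjTranspose]
  simp

/-- the exchange matrix plus a matrix of size zero -/
def C (A : Type) [Ring A] (n : ℕ) :
    Matrix ((Fin n ⊕ Fin n) ⊕ Fin 0) ((Fin n ⊕ Fin n) ⊕ Fin 0) A :=
  fromBlocks (P A n) 0 0 1

theorem CC (n : ℕ) : C A n * C A n = 1 := by
  unfold C
  rw [fromBlocks_multiply, PP]
  simp

theorem Cs (n : ℕ) : (C A n)ᴴ = C A n := by
  unfold C
  rw [fromBlocks_conjTranspose, Ps]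
  simp

theorem cnj (n : ℕ) (x y z w : Matrix (Fin n) (Fin n) A) :
    P A n * fromBlocks x y z w * P A n = fromBlocks w z y x := by
  unfold P
  rw [fromBlocks_multiply, fromBlocks_multiply]
  simp

theorem conjC (n : ℕ) (X : Matrix (Fin n ⊕ Fin n) (Fin n ⊕ Fin n) A)
    (Y : Matrix (Fin 0) (Fin 0) A) :
    C A n * fromBlocks X 0 0 Y * C A n = fromBlocks (P A n * X * P A n) 0 0 Y := by
  unfold C
  rw [fromBlocks_multiply, fromBlocks_multiply]
  simp

end SWOAux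

open SWOAux in
theorem specSWO (hGRP : SpecGRP) : SpecSWO := by
  intro A _ _ ε n d f g m m' h
  obtain ⟨-, h2⟩ := hGRP A ε
  refine h2 _ _ (VA f g m m') (VB ε d) (VA g f m'ᴴ mᴴ) (VB ε (-((ε : ℤ) • dᴴ))) 0
    (fromBlocks (C A n) 0 0 (C A n)ᴴ * 1) (C A n) (C A n)
    (EU.diag (C A n) (C A n) (CC n) (CC n) 1 EU.one) (CC n) (CC n) ?_ h
  have hA : P A n * VA g f m'ᴴ mᴴ * P A n = VA f g m m' := by
    unfold VA
    rw [cnj, conjTranspose_conjTranspose]
  have hB : P A n * VB ε (-((ε : ℤ) • dᴴ)) * P A n = VB ε d := by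
    unfold VB
    rw [cnj]
    have e1 : (-((ε : ℤ) • -((ε : ℤ) • dᴴ))) = dᴴ := by
      rw [smul_neg, neg_neg, smul_smul, Int.units_coe_mul_self, one_smul]
    have e2 : (-((ε : ℤ) • dᴴ))ᴴ = -((ε : ℤ) • d) := by
      rw [conjTranspose_neg, conjTranspose_zsmul, conjTranspose_conjTranspose]
    rw [e1, e2]
  rw [mul_one, Cs, fromBlocks_mul_fromRows, fromRows_mul]
  simp only [Matrix.zero_mul, add_zero, zero_add]
  rw [conjC, conjC, hA, hB]

end Pool.Agent.Lib.MP8a3537.UO
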