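import Pool.Agent.Lib.MP_8a3537_gt.UO.Spec

/-!
# MP_8a3537_gt, folder UO, module TRM: `d` invertible
-/

set_option autoImplicit false

namespace Pool.Agent.Lib.MP8a3537.UO

open Matrix Pool.Agent.Lib.MP8a3537.UV

namespace TRMAux

theorem ee {M : Type*} [AddCommGroup M] (ε : ℤˣ) (x : M) : (ε : ℤ) • ((ε : ℤ) • x) = x := by
  rw [smul_smul, ← Units.val_mul, Int.units_mul_self, Units.val_one, one_smul]

variable {A : Type*} [Ring A] [StarRing A]

/-- a Lagrangian whose second half is invertible is the image of the standard one -/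
theorem key (ε : ℤˣ) {I : Type*} [Fintype I] [DecidableEq I] (a b bi Z : Matrix I I A)
    (h1 : b * bi = 1) (h2 : bi * b = 1) (h3 : bᴴ * a = Z - (ε : ℤ) • Zᴴ) :
    ∃ u : Matrix (I ⊕ I) (I ⊕ I) A, EU ε u ∧
      fromRows a b = (u * (fromRows b 0 : Matrix (I ⊕ I) I A) : Matrix (I ⊕ I) I A) := by
  have h4 : biᴴ * bᴴ = 1 := by rw [← conjTranspose_mul, h1, conjTranspose_one]
  have hE : diagOn A (Finset.univ : Finset I) = 1 := by
    unfold diagOn
    simp
  have h5 : ((ε : ℤ) • (biᴴ * Z * bi) - (ε : ℤ) • ((ε : ℤ) • (biᴴ * Z * bi))ᴴ) * b =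
      (ε : ℤ) • a := by
    have h6 : (biᴴ * Z * bi)ᴴ = biᴴ * Zᴴ * bi := by
      rw [conjTranspose_mul, conjTranspose_mul, conjTranspose_conjTranspose, Matrix.mul_assoc]
    have h7 : biᴴ * Z * bi - (ε : ℤ) • (biᴴ * Zᴴ * bi) = a * bi := by
      have h8 : biᴴ * (bᴴ * a) * bi = a * bi := by
        rw [← Matrix.mul_assoc, h4, Matrix.one_mul]
      rw [← h8, h3, Matrix.mul_sub, Matrix.sub_mul, Matrix.mul_smul, Matrix.smul_mul]
    rw [← smul_sub, conjTranspose_zsmul, h6, Matrix.smul_mul, h7, Matrix.mul_assoc, h2,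
      Matrix.mul_one]
  refine ⟨_, EU.flip Finset.univ _ (EU.low ((ε : ℤ) • (biᴴ * Z * bi)) _ EU.one), ?_⟩
  rw [hE, sub_self, Matrix.mul_one, Matrix.mul_assoc, fromBlocks_mul_fromRows,
    fromBlocks_mul_fromRows, h5]
  simp only [Matrix.one_mul, Matrix.zero_mul, Matrix.mul_zero, add_zero, zero_add,
    Matrix.smul_mul, ee]

end TRMAux

open TRMAux in
theorem specTRM : SpecTRM := by
  intro A _ _ ε n d di f g m m' h1 h2 h3 hf hg
  obtain ⟨Z1, hf⟩ := hf
  obtain ⟨Z2, hg⟩ := hg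
  have h1' : diᴴ * dᴴ = 1 := by rw [← conjTranspose_mul, h1, conjTranspose_one]
  have h2' : dᴴ * diᴴ = 1 := by rw [← conjTranspose_mul, h2, conjTranspose_one]
  -- the inverse of the second half
  have hb : VB ε d * fromBlocks diᴴ 0 0 (-((ε : ℤ) • di)) = 1 := by
    unfold VB
    rw [fromBlocks_multiply]
    simp only [Matrix.mul_zero, Matrix.zero_mul, add_zero, zero_add, neg_mul_neg, Matrix.smul_mul,
      Matrix.mul_smul, ee, h1, h2', fromBlocks_one]
  have hb' : fromBlocks diᴴ 0 0 (-((ε : ℤ) • di)) * VB ε d = 1 := by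
    unfold VB
    rw [fromBlocks_multiply]
    simp only [Matrix.mul_zero, Matrix.zero_mul, add_zero, zero_add, neg_mul_neg, Matrix.smul_mul,
      Matrix.mul_smul, ee, h2, h1', fromBlocks_one]
  have hev : (VB ε d)ᴴ * VA f g m m' =
      fromBlocks Z1 (d * (1 + m)) 0 Z2ᴴ - (ε : ℤ) • (fromBlocks Z1 (d * (1 + m)) 0 Z2ᴴ)ᴴ := by
    unfold VA VB
    rw [fromBlocks_conjTranspose, fromBlocks_conjTranspose, fromBlocks_multiply, fromBlocks_smul,
      sub_eq_add_neg, fromBlocks_neg, fromBlocks_add]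
    simp only [← sub_eq_add_neg]
    simp only [conjTranspose_zero, conjTranspose_conjTranspose, Matrix.zero_mul, add_zero, zero_add,
      smul_zero, sub_zero, zero_sub, hf]
    congr 1
    · rw [conjTranspose_neg, conjTranspose_zsmul, conjTranspose_mul, conjTranspose_add,
        conjTranspose_one, Matrix.neg_mul, Matrix.smul_mul]
      congr 2
      have h4 : mᴴ * dᴴ = dᴴ * m'ᴴ := by rw [← conjTranspose_mul, h3, conjTranspose_mul]
      rw [Matrix.mul_add, Matrix.add_mul, h4, Matrix.mul_one, Matrix.one_mul]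
    · rw [conjTranspose_neg, conjTranspose_zsmul, Matrix.neg_mul, Matrix.smul_mul, hg, smul_sub, ee,
        neg_sub]
  set J := (Fin n ⊕ Fin n) ⊕ Fin 0
  have e1 : (fromBlocks (1 : Matrix (Fin n ⊕ Fin n) (Fin n ⊕ Fin n) A) 0 0
      (0 : Matrix (Fin 0) (Fin 0) A)) = 1 := by
    have e0 : (0 : Matrix (Fin 0) (Fin 0) A) = 1 := Subsingleton.elim _ _
    rw [e0, fromBlocks_one]
  have g1 : fromBlocks (VB ε d) 0 0 (0 : Matrix (Fin 0) (Fin 0) A) *
      fromBlocks (fromBlocks diᴴ 0 0 (-((ε : ℤ) • di))) 0 0 0 = 1 := by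
    rw [fromBlocks_multiply, ← e1]
    simp only [Matrix.mul_zero, Matrix.zero_mul, add_zero, hb]
  have g2 : fromBlocks (fromBlocks diᴴ 0 0 (-((ε : ℤ) • di))) 0 0 (0 : Matrix (Fin 0) (Fin 0) A) *
      fromBlocks (VB ε d) 0 0 (0 : Matrix (Fin 0) (Fin 0) A) = 1 := by
    rw [fromBlocks_multiply, ← e1]
    simp only [Matrix.mul_zero, Matrix.zero_mul, add_zero, hb']
  obtain ⟨u, hu, he⟩ := key ε (fromBlocks (VA f g m m') 0 0 (1 : Matrix (Fin 0) (Fin 0) A))
    (fromBlocks (VB ε d) 0 0 (0 : Matrix (Fin 0) (Fin 0) A))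
    (fromBlocks (fromBlocks diᴴ 0 0 (-((ε : ℤ) • di))) 0 0 (0 : Matrix (Fin 0) (Fin 0) A))
    (fromBlocks (fromBlocks Z1 (d * (1 + m)) 0 Z2ᴴ) 0 0 (0 : Matrix (Fin 0) (Fin 0) A)) g1 g2 (by
      rw [fromBlocks_conjTranspose, fromBlocks_conjTranspose (fromBlocks Z1 _ _ _),
        fromBlocks_multiply, fromBlocks_smul, sub_eq_add_neg, fromBlocks_neg, fromBlocks_add]
      simp only [conjTranspose_zero, Matrix.mul_zero, Matrix.zero_mul, add_zero, smul_zero,
        neg_zero, hev, ← sub_eq_add_neg])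
  exact ⟨0, u, _, _, hu, g1, g2, he⟩

end Pool.Agent.Lib.MP8a3537.UO
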