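import Pool.Agent.Lib.MP_8a3537_gt.UO.Spec

/-!
# MP_8a3537_gt, folder UO, module STP: the data after a move, and the exchanged data
-/

namespace Pool.Agent.Lib.MP8a3537.UO

open Matrix Pool.Agent.Lib.MP8a3537.UV

namespace STPAux

section ext

variable {D G : Type} [CommRing D] [Group G] {H : Subgroup G} {l m n : Type} [Fintype m]

theorem ext_mul (A : Matrix l m (MonoidAlgebra D H)) (B : Matrix m n (MonoidAlgebra D H)) :
    (ext (A * B) : Matrix l n (MonoidAlgebra D G)) = ext A * ext B := by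
  unfold ext
  exact Matrix.map_mul

omit [Fintype m] in
theorem map_star [StarRing D] (x : MonoidAlgebra D H) :
    MonoidAlgebra.mapDomainRingHom D H.subtype (star x) =
      star (MonoidAlgebra.mapDomainRingHom D H.subtype x) := by
  induction x using MonoidAlgebra.induction_linear with
  | zero => rw [star_zero, map_zero, star_zero]
  | add f g hf hg => rw [star_add, map_add, map_add, star_add, hf, hg]
  | single a r =>
    simp [star_single]

omit [Fintype m] in
theorem ext_star [StarRing D] (A : Matrix m n (MonoidAlgebra D H)) :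
    (ext Aᴴ : Matrix n m (MonoidAlgebra D G)) = (ext A)ᴴ := by
  ext1 i j
  exact map_star (A j i)

omit [Fintype m] in
theorem ext_smul (ε : ℤ) (A : Matrix m n (MonoidAlgebra D H)) :
    ext (-(ε • A)) = -(ε • (ext A : Matrix m n (MonoidAlgebra D G))) := by
  ext1 i j
  change MonoidAlgebra.mapDomainRingHom D H.subtype (-(ε • A i j)) =
    -(ε • MonoidAlgebra.mapDomainRingHom D H.subtype (A i j))
  rw [map_neg, map_zsmul]

omit [Fintype m] in
theorem supp_ext (c : Matrix l m (MonoidAlgebra D H)) :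
    SuppIn (H : Set G) (ext c : Matrix l m (MonoidAlgebra D G)) := by
  intro i j g hg
  by_contra hn
  apply hg
  change (Finsupp.mapDomain H.subtype (c i j).coeff) g = 0
  refine Finsupp.mapDomain_of_notMem_range _ _ ?_
  rintro ⟨h, rfl⟩
  exact hn h.2

theorem supp_mul {X Y Z : Set G}
    {M : Matrix l m (MonoidAlgebra D G)} {N : Matrix m n (MonoidAlgebra D G)}
    (hM : SuppIn X M) (hN : SuppIn Y N) (h : ∀ x ∈ X, ∀ y ∈ Y, x * y ∈ Z) :
    SuppIn Z (M * N) := by
  intro i j g hg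
  rw [Matrix.mul_apply, MonoidAlgebra.coeff_sum, Finsupp.finsetSum_apply] at hg
  obtain ⟨k, _, hk⟩ := Finset.exists_ne_zero_of_sum_ne_zero hg
  rw [MonoidAlgebra.coeff_mul_apply_left] at hk
  obtain ⟨y, _, hy⟩ := Finset.exists_ne_zero_of_sum_ne_zero hk
  have h1 := hM i k y (left_ne_zero_of_mul hy)
  have h2 := hN k j _ (right_ne_zero_of_mul hy)
  have h3 := h _ h1 _ h2
  rwa [mul_inv_cancel_left] at h3

omit [Fintype m] in
theorem supp_star [StarRing D] {X : Set G} {M : Matrix l m (MonoidAlgebra D G)}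
    (hM : SuppIn X M) : SuppIn (Xinv X) Mᴴ := by
  intro i j g hg
  rw [Matrix.conjTranspose_apply, star_coeff] at hg
  refine hM j i g⁻¹ fun h => hg ?_
  rw [h, star_zero]

end ext

section star

variable {A : Type*} [Ring A] [StarRing A] {m n : Type*}

theorem smul_star (ε : ℤ) (M : Matrix m n A) : (ε • M)ᴴ = ε • Mᴴ := by
  ext1 i j
  change star (ε • M j i) = ε • star (M j i)
  rw [star_zsmul]

theorem neg_star (M : Matrix m n A) : (-M)ᴴ = -Mᴴ := by
  ext1 i j
  change star (-(M j i)) = -star (M j i)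
  rw [star_neg]

end star

theorem star_smul_one {D H : Type} [CommRing D] [StarRing D] [Group H] {n : ℕ} (q : D) :
    (q • (1 : Matrix (Fin n) (Fin n) (MonoidAlgebra D H)))ᴴ = star q • 1 := by
  ext1 i j
  change star (q • (1 : Matrix (Fin n) (Fin n) (MonoidAlgebra D H)) j i) =
    star q • (1 : Matrix (Fin n) (Fin n) (MonoidAlgebra D H)) i j
  by_cases h : i = j
  · subst h
    rw [Matrix.one_apply_eq]
    have h1 : ∀ r : D, r • (1 : MonoidAlgebra D H) = MonoidAlgebra.single 1 r := by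
      intro r
      rw [MonoidAlgebra.one_def, MonoidAlgebra.smul_single, smul_eq_mul, mul_one]
    rw [h1, h1, star_single, inv_one]
  · rw [Matrix.one_apply_ne h, Matrix.one_apply_ne (Ne.symm h), smul_zero, smul_zero, star_zero]

theorem eps_mul (ε : ℤˣ) : (ε : ℤ) * (ε : ℤ) = 1 := by
  rcases Int.units_eq_one_or ε with rfl | rfl <;> simp

theorem pow_shift {M : Type*} [Monoid M] (a b : M) (l : ℕ) :
    (a * b) ^ (l + 1) = a * (b * a) ^ l * b := by
  induction l with
  | zero => simp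
  | succ l ih =>
    rw [pow_succ, ih, pow_succ]
    simp only [mul_assoc]

/-- part 1 -/
theorem part1 {D G : Type} [CommRing D] [StarRing D] [Group G] {H : Subgroup G}
    {X1 X2 X3 : Set G} {ε : ℤˣ} {n : ℕ} {q : D} {e : Matrix (Fin n) (Fin n) (MonoidAlgebra D H)}
    {f m' : Matrix (Fin n) (Fin n) (MonoidAlgebra D G)}
    {c d' : Matrix (Fin n) (Fin n) (MonoidAlgebra D H)}
    {g' m1' : Matrix (Fin n) (Fin n) (MonoidAlgebra D G)}
    (hX2 : ∀ h ∈ H, ∀ x ∈ X2, h * x ∈ X2) (hX3 : ∀ h ∈ H, ∀ x ∈ X3, h * x ∈ X3)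
    (hg' : SuppIn X1 g') (hm1 : SuppIn X3 m1')
    (hc : ∀ X : Matrix (Fin n) (Fin n) (MonoidAlgebra D H), X * c = 0 → X = 0)
    (hce : ∀ X : Matrix (Fin n) (Fin n) (MonoidAlgebra D G), X * ext c = 0 → X = 0)
    (h : OD H X1 X2 X3 ε q (d' * c) e f (g' * ext c) (m1' * ext c) m') :
    OD H X1 X2 X3 ε q d' (c * e) (ext c * f) g' (ext c * m1') m' := by
  have hd : (ext (d' * c) : Matrix _ _ (MonoidAlgebra D G)) = ext d' * ext c := ext_mul d' c
  have hdf := h.df
  have hdg := h.dg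
  have hdm := h.dm
  rw [hd] at hdf hdg hdm
  have hdm' : ext d' * (ext c * m1') = m' * ext d' := by
    have h1 : (ext d' * (ext c * m1') - m' * ext d') * ext c = 0 := by
      rw [sub_mul]
      have h2 : ext d' * (ext c * m1') * ext c = ext d' * ext c * (m1' * ext c) := by
        simp only [Matrix.mul_assoc]
      rw [h2, hdm, Matrix.mul_assoc, sub_self]
    exact sub_eq_zero.1 (hce _ h1)
  have hcl : ∀ Z : Matrix (Fin n) (Fin n) (MonoidAlgebra D G), (ext c)ᴴ * Z = 0 → Z = 0 := by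
    intro Z hZ
    have h1 : Zᴴ * ext c = 0 := by
      have := congrArg Matrix.conjTranspose hZ
      rwa [Matrix.conjTranspose_mul, Matrix.conjTranspose_conjTranspose,
        Matrix.conjTranspose_zero] at this
    have h2 := congrArg Matrix.conjTranspose (hce _ h1)
    rwa [Matrix.conjTranspose_conjTranspose, Matrix.conjTranspose_zero] at h2
  have hY : (ext d')ᴴ * g' = -((ε : ℤ) • ((ext d')ᴴ * g')ᴴ) := by
    set Y := (ext d')ᴴ * g' with hYdef
    have h1 : (ext d' * ext c)ᴴ * (g' * ext c) = (ext c)ᴴ * Y * ext c := by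
      rw [Matrix.conjTranspose_mul, hYdef]
      simp only [Matrix.mul_assoc]
    rw [h1] at hdg
    have h2 : ((ext c)ᴴ * Y * ext c)ᴴ = (ext c)ᴴ * Yᴴ * ext c := by
      rw [Matrix.conjTranspose_mul, Matrix.conjTranspose_mul, Matrix.conjTranspose_conjTranspose,
        Matrix.mul_assoc]
    rw [h2] at hdg
    have h3 : ((ext c)ᴴ * (Y + (ε : ℤ) • Yᴴ)) * ext c = 0 := by
      rw [Matrix.mul_add, Matrix.add_mul, hdg, Matrix.mul_smul, Matrix.smul_mul]
      exact neg_add_cancel _
    exact eq_neg_of_add_eq_zero_left (hcl _ (hce _ h3))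
  refine ⟨h.q0, ?_, ?_, ?_, hg', ?_, h.sm', ?_, hY, hdm', ?_⟩
  · rw [← Matrix.mul_assoc]
    exact h.de
  · have h1 : (c * e * d' - q • (1 : Matrix (Fin n) (Fin n) (MonoidAlgebra D H))) * c = 0 := by
      rw [sub_mul]
      have h2 : c * e * d' * c = c * (e * (d' * c)) := by simp only [Matrix.mul_assoc]
      rw [h2, h.ed, Matrix.mul_smul, Matrix.smul_mul, Matrix.mul_one, Matrix.one_mul, sub_self]
    exact sub_eq_zero.1 (hc _ h1)
  · exact supp_mul (supp_ext c) h.sf fun x hx y hy => hX2 x hx y hy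
  · exact supp_mul (supp_ext c) hm1 fun x hx y hy => hX3 x hx y hy
  · rw [← Matrix.mul_assoc]
    exact hdf
  · obtain ⟨l, hh, hnil⟩ := h.nil
    set C : Matrix (Fin n ⊕ Fin n) (Fin n ⊕ Fin n) (MonoidAlgebra D G) :=
      fromBlocks (ext c) 0 0 1 with hC
    set τ : Matrix (Fin n ⊕ Fin n) (Fin n ⊕ Fin n) (MonoidAlgebra D G) :=
      fromBlocks m1' f g' m'ᴴ with hτ
    have e1 : fromBlocks (m1' * ext c) f (g' * ext c) m'ᴴ = τ * C := by
      rw [hC, hτ, Matrix.fromBlocks_multiply]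
      simp
    have e2 : fromBlocks (ext c * m1') (ext c * f) g' m'ᴴ = C * τ := by
      rw [hC, hτ, Matrix.fromBlocks_multiply]
      simp
    rw [e1] at hnil
    refine ⟨l + 1, C * hh * fromBlocks m' (-((ε : ℤ) • (fᴴ * (ext c)ᴴ)))
      (-((ε : ℤ) • ((ext c)ᴴ * g'ᴴ))) ((m1' * ext c)ᴴ * (ext c)ᴴ), ?_⟩
    rw [e2, pow_shift, hnil]
    have e3 : fromBlocks (ext (d' * c)) 0 0 (ext (d' * c))ᴴ * τ =
        fromBlocks m' (-((ε : ℤ) • (fᴴ * (ext c)ᴴ))) (-((ε : ℤ) • ((ext c)ᴴ * g'ᴴ)))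
          ((m1' * ext c)ᴴ * (ext c)ᴴ) * fromBlocks (ext d') 0 0 (ext d')ᴴ := by
      rw [hτ, Matrix.fromBlocks_multiply, Matrix.fromBlocks_multiply]
      simp only [Matrix.zero_mul, Matrix.mul_zero, add_zero, zero_add]
      rw [hd]
      congr 1
      · rw [Matrix.mul_assoc]
        exact hdm'
      · rw [hdf, Matrix.neg_mul, Matrix.smul_mul, Matrix.conjTranspose_mul,
          Matrix.conjTranspose_mul]
        simp only [Matrix.mul_assoc]
      · rw [Matrix.conjTranspose_mul, Matrix.mul_assoc, hY, Matrix.mul_neg, Matrix.mul_smul,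
          Matrix.neg_mul, Matrix.smul_mul, Matrix.conjTranspose_mul,
          Matrix.conjTranspose_conjTranspose, Matrix.mul_assoc]
      · rw [← Matrix.conjTranspose_mul, ← hdm, Matrix.conjTranspose_mul (ext d' * ext c),
          Matrix.conjTranspose_mul (ext d'), Matrix.mul_assoc]
    calc C * (hh * fromBlocks (ext (d' * c)) 0 0 (ext (d' * c))ᴴ) * τ
        = C * hh * (fromBlocks (ext (d' * c)) 0 0 (ext (d' * c))ᴴ * τ) := by
          simp only [Matrix.mul_assoc]
      _ = _ := by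
          rw [e3]
          simp only [Matrix.mul_assoc]

/-- part 2 -/
theorem part2 {D G : Type} [CommRing D] [StarRing D] [Group G] {H : Subgroup G}
    {X1 X2 X3 : Set G} {ε : ℤˣ} {n : ℕ} {q : D} {d e : Matrix (Fin n) (Fin n) (MonoidAlgebra D H)}
    {f g m m' : Matrix (Fin n) (Fin n) (MonoidAlgebra D G)}
    (h : OD H X1 X2 X3 ε q d e f g m m') :
    OD H X2 X1 (Xinv X3) ε (star q) (-((ε : ℤ) • dᴴ)) (-((ε : ℤ) • eᴴ)) g f m'ᴴ mᴴ := by
  have hε := eps_mul ε
  have hext : (ext (-((ε : ℤ) • dᴴ)) : Matrix _ _ (MonoidAlgebra D G)) =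
      -((ε : ℤ) • (ext d)ᴴ) := by
    rw [ext_smul, ext_star]
  have hextH : ((ext (-((ε : ℤ) • dᴴ)))ᴴ : Matrix _ _ (MonoidAlgebra D G)) =
      -((ε : ℤ) • ext d) := by
    rw [hext, neg_star, smul_star, Matrix.conjTranspose_conjTranspose]
  refine ⟨?_, ?_, ?_, h.sg, h.sf, supp_star h.sm', supp_star h.sm, ?_, ?_, ?_, ?_⟩
  · intro h0
    exact h.q0 (star_eq_zero.1 h0)
  · rw [neg_mul_neg, Matrix.smul_mul, Matrix.mul_smul, smul_smul, hε, one_smul,
      ← Matrix.conjTranspose_mul, h.ed, star_smul_one]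
  · rw [neg_mul_neg, Matrix.smul_mul, Matrix.mul_smul, smul_smul, hε, one_smul,
      ← Matrix.conjTranspose_mul, h.de, star_smul_one]
  · rw [hext, Matrix.neg_mul, Matrix.smul_mul, neg_star, smul_star, smul_neg, smul_smul, hε,
      one_smul, neg_neg]
    have h1 := h.dg
    have h2 := congrArg (fun Z => -((ε : ℤ) • Z)) h1
    simp only [smul_neg, smul_smul, hε, one_smul, neg_neg] at h2
    exact h2
  · rw [hextH, Matrix.neg_mul, Matrix.smul_mul, neg_star, smul_star, smul_neg, smul_smul, hε,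
      one_smul, neg_neg]
    have h1 := h.df
    have h2 := congrArg (fun Z => -((ε : ℤ) • Z)) h1
    simp only [smul_neg, smul_smul, hε, one_smul, neg_neg] at h2
    exact h2
  · rw [hext, Matrix.neg_mul, Matrix.smul_mul, Matrix.mul_neg, Matrix.mul_smul,
      ← Matrix.conjTranspose_mul, ← Matrix.conjTranspose_mul, h.dm]
  · obtain ⟨l, hh, hnil⟩ := h.nil
    set J : Matrix (Fin n ⊕ Fin n) (Fin n ⊕ Fin n) (MonoidAlgebra D G) :=
      fromBlocks 0 1 1 0 with hJ
    have hJJ : J * J = 1 := by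
      rw [hJ, Matrix.fromBlocks_multiply]
      simp
    have e1 : fromBlocks m'ᴴ g f mᴴᴴ = J * fromBlocks m f g m'ᴴ * J := by
      rw [hJ, Matrix.fromBlocks_multiply, Matrix.fromBlocks_multiply]
      simp
    have e2 : ∀ k : ℕ, (J * fromBlocks m f g m'ᴴ * J) ^ k = J * fromBlocks m f g m'ᴴ ^ k * J := by
      intro k
      induction k with
      | zero => rw [pow_zero, pow_zero, Matrix.mul_one, hJJ]
      | succ k ih =>
        rw [pow_succ, ih, pow_succ]
        calc J * fromBlocks m f g m'ᴴ ^ k * J * (J * fromBlocks m f g m'ᴴ * J)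
            = J * fromBlocks m f g m'ᴴ ^ k * (J * J) * (fromBlocks m f g m'ᴴ * J) := by
              simp only [Matrix.mul_assoc]
          _ = _ := by
              rw [hJJ, Matrix.mul_one]
              simp only [Matrix.mul_assoc]
    refine ⟨l, -((ε : ℤ) • (J * hh * J)), ?_⟩
    rw [e1, e2, hnil, hextH, hext]
    have e3 : fromBlocks (-((ε : ℤ) • (ext d)ᴴ)) 0 0
        (-((ε : ℤ) • (ext d : Matrix _ _ (MonoidAlgebra D G)))) =
        -((ε : ℤ) • (J * fromBlocks (ext d) 0 0 (ext d)ᴴ * J)) := by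
      rw [hJ, Matrix.fromBlocks_multiply, Matrix.fromBlocks_multiply, Matrix.fromBlocks_smul,
        Matrix.fromBlocks_neg]
      simp
    rw [e3, neg_mul_neg, Matrix.smul_mul, Matrix.mul_smul, smul_smul, hε, one_smul]
    calc J * (hh * fromBlocks (ext d) 0 0 (ext d)ᴴ) * J
        = J * hh * 1 * (fromBlocks (ext d) 0 0 (ext d)ᴴ * J) := by
          simp only [Matrix.mul_assoc, Matrix.one_mul]
      _ = _ := by
          rw [← hJJ]
          simp only [Matrix.mul_assoc]

end STPAux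

theorem specSTP : SpecSTP := by
  intro D G _ _ _ _ H X1 X2 X3 ε n q e f m'
  refine ⟨?_, ?_⟩
  · intro c d' g' m1' hX2 hX3 hg' hm1 hc hce h
    exact STPAux.part1 hX2 hX3 hg' hm1 hc hce h
  · intro d g m h
    exact STPAux.part2 h

end Pool.Agent.Lib.MP8a3537.UO
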