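import Pool.Agent.Lib.MP_8a3537_gt.UO.Defs
import Pool.Agent.Lib.MP_8a3537_gt.UV.Spec

/-!
# Vanishing of `UNil_n`, `n` odd: Specs

Paper proof: `/team-store/8a3537_UO_odd.md`. Every module `XXX` is a file
`Pool/Agent/Lib/MP_8a3537_gt/UO/XXX.lean` which imports this file (and nothing else of the folder)
and proves `theorem specXXX (hypotheses as stated) : SpecXXX` (exactly this name) in the namespace
`Pool.Agent.Lib.MP8a3537.UO`, with its auxiliary declarations in `UO.XXXAux`. The landed modules of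
the folder UV (`specRES`, `specTat`, `specTRE`, `specHTR`, `specWAL`, `specLFT`, `specFld`) may be
imported where it is useful.
-/

namespace Pool.Agent.Lib.MP8a3537.UO

open Matrix Pool.Agent.Lib.MP8a3537.UV

/-- The vector `z` over `D[H]` as a vector over `D[G]`. -/
noncomputable def extv {D G : Type} [Ring D] [Group G] {H : Subgroup G} {n : Type*}
    (z : n → MonoidAlgebra D H) : n → MonoidAlgebra D G :=
  fun i => MonoidAlgebra.mapDomainRingHom D H.subtype (z i)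

/-! ### Lagrangians -/

/-- **GRP** (size 200): products in `EU`, and transport of `StablyTrivial`.

PROOF. (1) Induction on `EU ε u`, associativity. (2) `α', β'` stably trivial: `m`, `u'`, `c1`. Then
with `(α; β)`, `Fin (a + m)`: `stab_(a+m) (α; β) = (u ⊕ 1_m) (stab_(a+m) (α'; β')) (c ⊕ 1_m)` and
`stab_(m+a) (α'; β') = (u' ⊕ 1_a) (c1 ⊕ 1_a; 0)`, up to the permutations
`(ι ⊕ Fin a) ⊕ Fin m ≃ ι ⊕ Fin (a + m) ≃ (ι ⊕ Fin m) ⊕ Fin a`. One needs: `EU` is stable under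
reindexing by an equivalence `ι ≃ ι'` of the coordinates, and under `u ↦ u ⊕ 1` (both by induction
on `EU`: `diagOn` of a `Finset` goes to `diagOn` of its image). -/
def SpecGRP : Prop :=
  ∀ (A : Type) [Ring A] [StarRing A] (ε : ℤˣ),
    (∀ (ι : Type) [Fintype ι] [DecidableEq ι] (u v : Matrix (ι ⊕ ι) (ι ⊕ ι) A),
      EU ε u → EU ε v → EU ε (u * v)) ∧
    (∀ (ι κ : Type) [Fintype ι] [DecidableEq ι] [Fintype κ] [DecidableEq κ]
      (α β α' β' : Matrix ι κ A) (a : ℕ)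
      (u : Matrix ((ι ⊕ Fin a) ⊕ (ι ⊕ Fin a)) ((ι ⊕ Fin a) ⊕ (ι ⊕ Fin a)) A)
      (c c' : Matrix (κ ⊕ Fin a) (κ ⊕ Fin a) A), EU ε u → c * c' = 1 → c' * c = 1 →
      (fromRows (fromBlocks α 0 0 1) (fromBlocks β 0 0 0) :
          Matrix ((ι ⊕ Fin a) ⊕ (ι ⊕ Fin a)) (κ ⊕ Fin a) A) =
        u * (fromRows (fromBlocks α' 0 0 1) (fromBlocks β' 0 0 0) :
          Matrix ((ι ⊕ Fin a) ⊕ (ι ⊕ Fin a)) (κ ⊕ Fin a) A) * c →
      StablyTrivial ε α' β' → StablyTrivial ε α β)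

/-- **EMO** (size 250, hypothesis `SpecGRP`): the odd E-move.

PROOF (paper, section 1). `V = (VA f (g' c) (m1' c) m'; VB (d' c))`, plus `P' = A^n` (parameter `r`):
`p = f x + (1 + m1' c) y`, `q = (1 + m'^*) x + g' c y`, `p' = r`; dual coordinates
`p* = c^* d'^* x`, `q* = -ε d' c y`, `p'* = 0`. Apply
S1 (`diag`) `q += g' p'`, `p'* -= g'^* q*`; S2 (`low`) `q* += -ε d' p'`, `p'* += d'^* q`;
S3 (`low`) `p'* += - d'^* g' p'`; S4 (`diag`) `p += m1' p'`, `p'* -= m1'^* p*`;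
S5 (`diag`) `p' += c p`, `p* -= c^* p'*`. Result, with `y' = c y + r`, `s = f x + y + m1' y'`:
`p = s`, `p* = 0`, `q = (1 + m'^*) x + g' y'`, `p' = c f x + (1 + c m1') y'`, `q* = -ε d' y'`,
`p'* = d'^* x`. Exchange `p` and `p'` by a `diag` with the permutation matrix: this is
`(VA (c f) g' (c m1') m'; VB d')` plus `P` (parameter `s`), in the parameters `(x, y', s)`; the matrix
`(x, y, r) ↦ (x, y', s)` is invertible. Then GRP (2) with `a = n` (and GRP (1); one also needs the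
inverse of the product of the five steps, or write the steps in the other direction). -/
def SpecEMO : Prop :=
  ∀ (A : Type) [Ring A] [StarRing A] (ε : ℤˣ) (n : ℕ)
    (c d' g' m1' f m' : Matrix (Fin n) (Fin n) A),
    d' * c * m1' = m' * d' → (∃ Z, d'ᴴ * g' = Z - (ε : ℤ) • Zᴴ) →
    StablyTrivial ε (VA (c * f) g' (c * m1') m') (VB ε d') →
      StablyTrivial ε (VA f (g' * c) (m1' * c) m') (VB ε (d' * c))

/-- **TRM** (size 120): `d` invertible.

PROOF. `V = (φ; β)`, `φ = VA f g m m'`, `β = VB ε d` invertible with inverse `β'`. `Y = φ β'`.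
`β^* φ = (d f, d (1 + m); -ε d^* (1 + m'^*), -ε d^* g)` is of the form `Z - ε Z^*` (even), since
`d (1 + m) = (1 + m') d`. So `Y = β'^* (β^* φ) β'` is even, and so `ε Y` is even. With `J` the flip of
all coordinates (`(0, ε; 1, 0)`): `J (a; b) = (ε b; a)`, so `J (φ; β) = (ε β; φ)`, and
`φ = (ε Y) (ε β)`: `(ε β; φ) = low(ε Y) (ε β; 0)`. So `(φ; β) = J⁻¹ low(ε Y) (ε β; 0)`, and
`J⁻¹ = (0, 1; ε, 0)` is `J` times `diag(ε)` (`fromBlocks ε 0 0 ε`). `m = 0`: reindex by
`ι ≃ ι ⊕ Fin 0` (or take `m = 0` and do everything with blocks of size `0`). -/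
def SpecTRM : Prop :=
  ∀ (A : Type) [Ring A] [StarRing A] (ε : ℤˣ) (n : ℕ) (d di f g m m' : Matrix (Fin n) (Fin n) A),
    d * di = 1 → di * d = 1 → d * m = m' * d → (∃ Z, d * f = Z - (ε : ℤ) • Zᴴ) →
    (∃ Z, dᴴ * g = Z - (ε : ℤ) • Zᴴ) → StablyTrivial ε (VA f g m m') (VB ε d)

/-- **SWO** (size 60, hypothesis `SpecGRP`): exchange of the two coordinates.

PROOF. `VB ε (-(ε • d^*)) = (-ε d, 0; 0, d^*)` and `VA g f m'^* m^* = (g, 1 + m'^*; 1 + m, f)`: these
are `VB ε d` and `VA f g m m'` with both the rows and the columns exchanged. `EU.diag` with the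
permutation matrix `(0, 1; 1, 0)`, `a = 0` in GRP (2). -/
def SpecSWO : Prop :=
  ∀ (A : Type) [Ring A] [StarRing A] (ε : ℤˣ) (n : ℕ) (d f g m m' : Matrix (Fin n) (Fin n) A),
    StablyTrivial ε (VA g f m'ᴴ mᴴ) (VB ε (-((ε : ℤ) • dᴴ))) →
      StablyTrivial ε (VA f g m m') (VB ε d)

/-! ### Progress -/

/-- **KER** (size 200): ping-pong.

PROOF (paper, section 3, KER). `W = {(w1; w2) : supp w1 ⊆ Yp, supp w2 ⊆ Ym, d1 w1 = 0, d2 w2 = 0}` over
`k[G]` is mapped to itself by `ν = (m1, f; g, m2)` (supports: `X3 Yp`, `X2 Ym ⊆ Yp`, `X1 Yp`,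
`Xinv X3 Ym ⊆ Ym`; `d1 (m1 w1 + f w2) = m3 d1 w1 + f3 d2 w2 = 0`, same for `d2`). `ν` is injective on
`W`: `ν w = 0` gives `m1 w1 = 0`, `f w2 = 0` (by `d23` the supports are disjoint), `g w1 = 0`,
`m2 w2 = 0` (`d13`). Decompose `w1 = ∑_j w_j t_j` over the right cosets `H t_j`
(`w_j = lres H t_j w1`, see UV/Spec and `specRES`): `g w1 = ∑ (g w_j) t_j`, `supp (g w_j) ⊆ X1`, and
`x t_j = x' t_k` (`x, x' ∈ X1`, `t_j, t_k ∈ Yp`) implies `x⁻¹ x' ∈ H` (`u1`), so `t_j ∈ H t_k`, `j = k`: so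
`g w_j = 0`, same for `m1` (`u3`); `d1 w_j = 0`; so `w_j = 0`. For `w2`: `u2`, `u3'`. But
`ν^l w = h (d1 w1; d2 w2) = 0` for `w ∈ W`: so `W = 0`. If `d1 z = 0`, `z` over `k[H]`, then
`(z; 0) ∈ W` (`1 ∈ Yp`, `H Yp ⊆ Yp`), so `z = 0`; same for `d2`. -/
def SpecKER : Prop :=
  ∀ (k G : Type) [Ring k] [Group G] (H : Subgroup G) (X1 X2 X3 Yp Ym : Set G)
    (_ : PingPong H X1 X2 X3 Yp Ym) (n : ℕ) (d1 d2 : Matrix (Fin n) (Fin n) (MonoidAlgebra k H))
    (f g m1 m2 m3 f3 g3 m4 : Matrix (Fin n) (Fin n) (MonoidAlgebra k G)),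
    SuppIn X2 f → SuppIn X1 g → SuppIn X3 m1 → SuppIn (Xinv X3) m2 →
    ext d1 * m1 = m3 * ext d1 → ext d1 * f = f3 * ext d2 → ext d2 * g = g3 * ext d1 →
    ext d2 * m2 = m4 * ext d2 →
    (∃ (l : ℕ) (h : Matrix (Fin n ⊕ Fin n) (Fin n ⊕ Fin n) (MonoidAlgebra k G)),
      (fromBlocks m1 f g m2) ^ l = h * fromBlocks (ext d1) 0 0 (ext d2)) →
    (∀ z : Fin n → MonoidAlgebra k H, d1 *ᵥ z = 0 → g *ᵥ extv z = 0 → m1 *ᵥ extv z = 0 → z = 0) →
    (∀ z : Fin n → MonoidAlgebra k H, d2 *ᵥ z = 0 → f *ᵥ extv z = 0 → m2 *ᵥ extv z = 0 → z = 0) →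
    (∀ z : Fin n → MonoidAlgebra k H, d1 *ᵥ z = 0 → z = 0) ∧
    (∀ z : Fin n → MonoidAlgebra k H, d2 *ᵥ z = 0 → z = 0)

/-- The data of a torsion nilpotent complex: `d : S^n → S^n`, `S = D[H]`, with `d e = e d = q`. -/
structure OD {D G : Type} [CommRing D] [StarRing D] [Group G] (H : Subgroup G) (X1 X2 X3 : Set G)
    (ε : ℤˣ) {n : ℕ} (q : D) (d e : Matrix (Fin n) (Fin n) (MonoidAlgebra D H))
    (f g m m' : Matrix (Fin n) (Fin n) (MonoidAlgebra D G)) : Prop where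
  q0 : q ≠ 0
  de : d * e = q • (1 : Matrix (Fin n) (Fin n) (MonoidAlgebra D H))
  ed : e * d = q • (1 : Matrix (Fin n) (Fin n) (MonoidAlgebra D H))
  sf : SuppIn X2 f
  sg : SuppIn X1 g
  sm : SuppIn X3 m
  sm' : SuppIn X3 m'
  df : ext d * f = -((ε : ℤ) • (ext d * f)ᴴ)
  dg : (ext d)ᴴ * g = -((ε : ℤ) • ((ext d)ᴴ * g)ᴴ)
  dm : ext d * m = m' * ext d
  nil : ∃ (l : ℕ) (h : Matrix (Fin n ⊕ Fin n) (Fin n ⊕ Fin n) (MonoidAlgebra D G)),
    (fromBlocks m f g m'ᴴ) ^ l = h * fromBlocks (ext d) 0 0 (ext d)ᴴ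

/-- Divisible by `p`. -/
def Dv {D M : Type} [SMul D M] (p : D) (z : M) : Prop := ∃ y : M, z = p • y

/-- **RED** (size 150, hypothesis `SpecKER`): reduction modulo a prime.

PROOF. `k = D ⧸ (p)`, `bar = mapRingHom` for `D → k`; the kernel of `D[G] → k[G]` consists of the
elements divisible by `p` (coefficientwise; choose quotients, finite support). Apply KER with
`d1 = dbar`, `d2 = (d^*)bar`, `m1 = mbar`, `m2 = (m'^*)bar`, `m3 = m'bar`, `f3 = (-ε f^*)bar`
(`d f = -ε f^* d^*`), `g3 = (-ε g^*)bar` (`d^* g = -ε g^* d`), `m4 = (m^*)bar`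
(`d^* m'^* = (m' d)^* = (d m)^* = m^* d^*`), and the reduction of `nil`. -/
def SpecRED : Prop :=
  ∀ (D G : Type) [CommRing D] [IsDomain D] [StarRing D] [Group G] (H : Subgroup G)
    (X1 X2 X3 Yp Ym : Set G) (_ : PingPong H X1 X2 X3 Yp Ym) (ε : ℤˣ) (n : ℕ) (q : D)
    (d e : Matrix (Fin n) (Fin n) (MonoidAlgebra D H))
    (f g m m' : Matrix (Fin n) (Fin n) (MonoidAlgebra D G)),
    OD H X1 X2 X3 ε q d e f g m m' → ∀ p : D, Prime p →
    (∀ z : Fin n → MonoidAlgebra D H, Dv p (d *ᵥ z) → Dv p (g *ᵥ extv z) → Dv p (m *ᵥ extv z) →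
      Dv p z) →
    (∀ z : Fin n → MonoidAlgebra D H, Dv p (dᴴ *ᵥ z) → Dv p (f *ᵥ extv z) →
      Dv p (m'ᴴ *ᵥ extv z) → Dv p z) →
    ∀ z : Fin n → MonoidAlgebra D H, Dv p (d *ᵥ z) → Dv p z

/-- **MOV** (size 250, hypothesis `SpecLFT`): a move.

PROOF (paper, section 3, MOV). `k = D ⧸ (p)` is a field (`D` is a PID). Choose representatives of the
finitely many left cosets `t H` which meet the supports of the entries of `g` and `m`. Let `L` be the
matrix over `k[H]` with the rows of `dbar` and of all `(res H t g)bar`, `(res H t m)bar`. Then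
`L zbar = 0`, `zbar ≠ 0`. (WA) for columns: for the anti-automorphism `τ` of `k[H]`, `h ↦ h⁻¹`, applied
to the transposed matrix (see `FLDAux` in UV/FLD, which does this); get `γ` in `GE` over `k` such that the column
`j` of `L γ` is `0` (the transposed conjugate of an element of `GE` is a product of the same
generators in the opposite order; the inverse of an element of `GE` is in `GE`, `SpecLFT`). Lift `γ`
to `GE` over `D` (`SpecLFT`). Then the column `j` of `d γ`, `g γ`, `m γ` is divisible by `p`: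
`d γ = d' Δ`, `g γ = g' Δ`, `m γ = m1' Δ`, `Δ = diagonal (1, .., p, .., 1)`. `c = Δ γ⁻¹`.
`det aug γ⁻¹ = 1`, `det aug Δ = p`. Supports: `g γ` has its support in `X H ⊆ X`, and dividing by `p`
does not change it (`D` is a domain). Cancellation: `X Δ = 0` implies `X = 0`. -/
def SpecMOV : Prop :=
  ∀ (D G : Type) [CommRing D] [IsDomain D] [IsPrincipalIdealRing D] [Group G] (H : Subgroup G)
    (n : ℕ) (d : Matrix (Fin n) (Fin n) (MonoidAlgebra D H))
    (g m : Matrix (Fin n) (Fin n) (MonoidAlgebra D G)) (p : D), Prime p →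
    (∀ (k : Type) [Field k], WA k H) →
    (∃ z : Fin n → MonoidAlgebra D H, ¬ Dv p z ∧ Dv p (d *ᵥ z) ∧ Dv p (g *ᵥ extv z) ∧
      Dv p (m *ᵥ extv z)) →
    ∃ (c d' : Matrix (Fin n) (Fin n) (MonoidAlgebra D H))
      (g' m1' : Matrix (Fin n) (Fin n) (MonoidAlgebra D G)),
      d = d' * c ∧ g = g' * ext c ∧ m = m1' * ext c ∧
      (∀ X : Set G, (∀ h ∈ H, ∀ x ∈ X, x * h ∈ X) → SuppIn X g → SuppIn X g') ∧
      (∀ X : Set G, (∀ h ∈ H, ∀ x ∈ X, x * h ∈ X) → SuppIn X m → SuppIn X m1') ∧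
      (∀ X : Matrix (Fin n) (Fin n) (MonoidAlgebra D H), X * c = 0 → X = 0) ∧
      (∀ X : Matrix (Fin n) (Fin n) (MonoidAlgebra D G), X * ext c = 0 → X = 0) ∧
      (c.map (aug D H)).det = p

/-- **END** (size 80): `d` injective modulo all primes is invertible.

PROOF. Induction on the number of prime factors of `q` (`WfDvdMonoid.induction_on_irreducible` or
`normalizedFactors`): if `q` is a unit then `q⁻¹ e` is the inverse. If `q = p q'` with `p` prime then
the columns of `d e = p q'` are divisible by `p`, so those of `e` are: `e = p e'`, `d e' = q'`,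
`e' d = q'` (cancel `p`: `D[F]` is torsion-free over the domain `D`). -/
def SpecEND : Prop :=
  ∀ (D F : Type) [CommRing D] [IsDomain D] [IsPrincipalIdealRing D] [Group F] (n : ℕ) (q : D)
    (d e : Matrix (Fin n) (Fin n) (MonoidAlgebra D F)), q ≠ 0 →
    d * e = q • (1 : Matrix (Fin n) (Fin n) (MonoidAlgebra D F)) →
    e * d = q • (1 : Matrix (Fin n) (Fin n) (MonoidAlgebra D F)) →
    (∀ p : D, Prime p → ∀ z : Fin n → MonoidAlgebra D F, Dv p (d *ᵥ z) → Dv p z) →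
    ∃ di : Matrix (Fin n) (Fin n) (MonoidAlgebra D F), d * di = 1 ∧ di * d = 1

/-- **STP** (size 200): the data after a move, and the exchanged data.

PROOF (paper, section 3, MOV). (1) `e_new = c e`: `d' (c e) = q`, `(c e) d' c = c (e d) = q c`, cancel
`c`. `(ext d' * ext c * f)` is `ext d * f`, so `df` is clear. `dg`: `(ext c)^* (ext d')^* g' (ext c)` is
`(-ε)`-symmetric; cancel `ext c` on the right, `(ext c)^*` on the left (by `star`). `dm`:
`d' c m1' c = m' d' c`, cancel. `nil`: `ν = τ C`, `ν' = C τ`, `C = fromBlocks (ext c) 0 0 1`,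
`τ = fromBlocks m1' f g' m'^*`: `ν'^(l+1) = C ν^l τ = C h (δ τ)`, `δ = fromBlocks (ext d) 0 0 (ext d)^*`
and `δ τ = fromBlocks m' (-ε f^* c^*) (-ε c^* g'^*) m^* * δ'`: `d m1' = m' d'`,
`d f = -ε f^* d^* = -ε f^* c^* d'^*`, `d^* g' = c^* d'^* g' = -ε c^* g'^* d'`,
`d^* m'^* = (m' d)^* = (d m)^* = m^* d^* = m^* c^* d'^*`.
(2) direct: `d` is replaced by `-ε d^*`, `e` by `-ε e^*`, `q` by `q^*`; `nil`: exchange the blocks. -/
def SpecSTP : Prop :=
  ∀ (D G : Type) [CommRing D] [IsDomain D] [StarRing D] [Group G] (H : Subgroup G)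
    (X1 X2 X3 : Set G) (ε : ℤˣ) (n : ℕ) (q : D)
    (e : Matrix (Fin n) (Fin n) (MonoidAlgebra D H))
    (f m' : Matrix (Fin n) (Fin n) (MonoidAlgebra D G)),
    (∀ (c d' : Matrix (Fin n) (Fin n) (MonoidAlgebra D H))
      (g' m1' : Matrix (Fin n) (Fin n) (MonoidAlgebra D G)),
      (∀ h ∈ H, ∀ x ∈ X2, h * x ∈ X2) → (∀ h ∈ H, ∀ x ∈ X3, h * x ∈ X3) →
      SuppIn X1 g' → SuppIn X3 m1' →
      (∀ X : Matrix (Fin n) (Fin n) (MonoidAlgebra D H), X * c = 0 → X = 0) →
      (∀ X : Matrix (Fin n) (Fin n) (MonoidAlgebra D G), X * ext c = 0 → X = 0) →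
      OD H X1 X2 X3 ε q (d' * c) e f (g' * ext c) (m1' * ext c) m' →
      OD H X1 X2 X3 ε q d' (c * e) (ext c * f) g' (ext c * m1') m') ∧
    (∀ (d : Matrix (Fin n) (Fin n) (MonoidAlgebra D H))
      (g m : Matrix (Fin n) (Fin n) (MonoidAlgebra D G)),
      OD H X1 X2 X3 ε q d e f g m m' →
      OD H X2 X1 (Xinv X3) ε (star q) (-((ε : ℤ) • dᴴ)) (-((ε : ℤ) • eᴴ)) g f m'ᴴ mᴴ)

/-- The odd theorem for ping-pong data. -/
def Thm1 : Prop :=
  ∀ (D G : Type) [CommRing D] [IsDomain D] [IsPrincipalIdealRing D] [StarRing D] [Group G]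
    (H : Subgroup G) (X1 X2 X3 Yp Ym : Set G) (_ : PingPong H X1 X2 X3 Yp Ym)
    (_ : ∀ (k : Type) [Field k], WA k H) (ε : ℤˣ) (n : ℕ) (q : D)
    (d e : Matrix (Fin n) (Fin n) (MonoidAlgebra D H))
    (f g m m' : Matrix (Fin n) (Fin n) (MonoidAlgebra D G)),
    OD H X1 X2 X3 ε q d e f g m m' → StablyTrivial ε (VA f g m m') (VB ε (ext d))

/-- **IDO** (size 200, hypotheses `SpecEMO, SpecTRM, SpecSWO, SpecRED, SpecMOV, SpecEND, SpecSTP` and
`SpecTAT` of UV).

PROOF. `PingPong H X1 X2 X3 Yp Ym → PingPong H X2 X1 (Xinv X3) Ym Yp` (this is done in UV/IND). Strong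
induction on the number of prime factors (`(normalizedFactors _).card`) of `det (d.map aug)`, which is
not `0` because `det (d.map aug) * det (e.map aug) = q ^ n`. If `d` is invertible: TRM; `d f` and `d^* g`
are even by TAT (`δ = -ε`; supports `H X2 ⊆ X2`, `H X1 ⊆ X1`). Otherwise by END there are a prime `p`
and `z` with `Dv p (d z)`, not `Dv p z`, so by RED one of its two hypotheses fails. If the first
fails: MOV, STP (1), `det (d.map aug) = det (d'.map aug) * p`, induction, EMO (`d'^* g'` is even by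
TAT). If the second fails: exchange (STP (2), SWO; `-ε dᴴ` divisible iff `dᴴ` is;
`det ((-ε dᴴ).map aug) = ± star (det (d.map aug))` has the same number of prime factors, as `star` is a
ring automorphism of `D`) and do the same. -/
def SpecIDO : Prop := Thm1

/-- **LWA** (size 120): (WA) for locally free groups (may use `specHTR`, `specWAL`).

PROOF. The supports of the entries of `C` and `x` generate a finitely generated subgroup `K` of `H`, so
`K` is isomorphic to a free group (`IsFreeGroup.toFreeGroup`), for which (WA) holds (WAL, HTR;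
transport along the isomorphism). `C = C0.map emb`, `x = emb x0`, `x0 C0 = 0` (`emb` is injective);
`GE` over `k[K]` maps to `GE` over `k[H]`. -/
def SpecLWA : Prop :=
  ∀ (k H : Type) [Field k] [Group H], (∀ K : Subgroup H, K.FG → IsFreeGroup K) → WA k H

/-- **FNO** (helper31): the final statement. -/
def SpecFNO : Prop :=
  ∀ (D G V : Type) [CommRing D] [IsDomain D] [IsPrincipalIdealRing D] [StarRing D] [Group G]
    [MulAction G V] (T : SimpleGraph V) (v w : V), T.IsTree →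
    (∀ (g : G) (x y : V), T.Adj x y → T.Adj (g • x) (g • y)) → T.Adj v w →
    (∀ g : G, ¬ (g • v = w ∧ g • w = v)) →
    (∀ g : G, g * g = 1 → (g • v = v ↔ g • w = w)) →
    (∀ K : Subgroup ↥(MulAction.stabilizer G v ⊓ MulAction.stabilizer G w),
      K.FG → IsFreeGroup K) →
    ∀ (ε : ℤˣ) (n : ℕ) (q : D)
      (d e : Matrix (Fin n) (Fin n) (MonoidAlgebra D
        ↥(MulAction.stabilizer G v ⊓ MulAction.stabilizer G w)))
      (f g m m' : Matrix (Fin n) (Fin n) (MonoidAlgebra D G)),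
      OD (MulAction.stabilizer G v ⊓ MulAction.stabilizer G w) {g | g • v = v ∧ g • w ≠ w}
        {g | g • w = w ∧ g • v ≠ v} {g | g • v = w} ε q d e f g m m' →
      StablyTrivial ε (VA f g m m') (VB ε (ext d))

end Pool.Agent.Lib.MP8a3537.UO
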